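import Mathlib

/-!
# MP_63048f_co, lower bound of order `n ^ 2 / t ^ 3`, part 1 (helper32): counting copies of `K_{t,t}`
-/

set_option autoImplicit false

namespace KC

open SimpleGraph

/-- `K_{t,t}` -/
abbrev Ktt (t : ℕ) : SimpleGraph (Fin t ⊕ Fin t) := completeBipartiteGraph (Fin t) (Fin t)

/-- a family of copies of `K_{t,t}` that are determined by their first sides -/
theorem count {W : Type} [Fintype W] {t : ℕ} (ht : 0 < t) (G : SimpleGraph W) (Ω : Type) [Finite Ω]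
    (f : Ω → Copy (Ktt t) G)
    (hinj : ∀ ω ω', (∀ i, ∃ j, f ω (Sum.inl i) = f ω' (Sum.inl j)) → ω = ω') :
    Nat.card Ω ≤ 2 * G.copyCount (Ktt t) := by
  classical
  have : Fintype Ω := Fintype.ofFinite Ω
  set g : Ω → G.Subgraph := fun ω => (f ω).toSubgraph with hg
  have hverts : ∀ ω x, x ∈ (g ω).verts ↔ ∃ y, f ω y = x := by
    intro ω x
    simp [hg, Copy.toSubgraph]
  have hAdj : ∀ ω a b, (g ω).Adj a b ↔ ∃ x y, (Ktt t).Adj x y ∧ f ω x = a ∧ f ω y = b := by
    intro ω a b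
    rfl
  have hmem : ∀ ω ω' x, g ω = g ω' → (∃ j, f ω x = f ω' (Sum.inl j)) ∨
      (∃ j, f ω x = f ω' (Sum.inr j)) := by
    intro ω ω' x h
    have h1 : f ω x ∈ (g ω').verts := by
      rw [← h, hverts]
      exact ⟨_, rfl⟩
    obtain ⟨y, hy⟩ := (hverts ω' _).1 h1
    rcases y with j | j
    · exact Or.inl ⟨j, hy.symm⟩
    · exact Or.inr ⟨j, hy.symm⟩
  have hadj' : ∀ ω ω' i j x y, g ω = g ω' → f ω (Sum.inl i) = f ω' x → f ω (Sum.inr j) = f ω' y →
      (Ktt t).Adj x y := by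
    intro ω ω' i j x y h hx hy
    have h1 : (g ω).Adj (f ω (Sum.inl i)) (f ω (Sum.inr j)) :=
      (hAdj _ _ _).2 ⟨_, _, by simp, rfl, rfl⟩
    rw [h, hx, hy, hAdj] at h1
    obtain ⟨a, b, hab, ha, hb⟩ := h1
    have ha' := (f ω').injective ha
    have hb' := (f ω').injective hb
    subst ha' hb'
    exact hab
  -- dichotomy
  have hdi : ∀ ω ω', g ω = g ω' → (∃ j, f ω (Sum.inl ⟨0, ht⟩) = f ω' (Sum.inl j)) →
      ∀ i, ∃ j, f ω (Sum.inl i) = f ω' (Sum.inl j) := by
    rintro ω ω' h ⟨c, hc⟩ i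
    rcases hmem ω ω' (Sum.inl i) h with h1 | ⟨d, hd⟩
    · exact h1
    · exfalso
      rcases hmem ω ω' (Sum.inr ⟨0, ht⟩) h with ⟨e, he⟩ | ⟨e, he⟩
      · have h2 := hadj' ω ω' _ _ _ _ h hc he
        simp at h2
      · have h2 := hadj' ω ω' _ _ _ _ h hd he
        simp at h2
  have h1 : Fintype.card Ω ≤ 2 * (Finset.univ.image g).card := by
    rw [← Finset.card_univ]
    refine Finset.card_le_mul_card_image _ _ fun S hS => ?_
    obtain ⟨ω0, _, h0⟩ := Finset.mem_image.1 hS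
    have h2 : (Finset.univ.filter (fun ω => g ω = S)).card ≤ (Finset.univ : Finset Bool).card := by
      refine Finset.card_le_card_of_injOn
        (fun ω => decide (∃ j, f ω (Sum.inl ⟨0, ht⟩) = f ω0 (Sum.inl j))) ?_ ?_
      · intro ω hω
        exact Finset.mem_coe.2 (Finset.mem_univ _)
      · intro ω hω ω' hω' h4
        have hω1 : g ω = g ω0 := by
          rw [h0]
          simpa using hω
        have hω1' : g ω' = g ω0 := by
          rw [h0]
          simpa using hω'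
        have h5 : (∃ j, f ω (Sum.inl ⟨0, ht⟩) = f ω0 (Sum.inl j)) ↔
            (∃ j, f ω' (Sum.inl ⟨0, ht⟩) = f ω0 (Sum.inl j)) := by
          simpa using h4
        by_cases h6 : ∃ j, f ω (Sum.inl ⟨0, ht⟩) = f ω0 (Sum.inl j)
        · exact (hinj ω ω0 (hdi ω ω0 hω1 h6)).trans (hinj ω' ω0 (hdi ω' ω0 hω1' (h5.1 h6))).symm
        · have h7 : ¬ ∃ j, f ω' (Sum.inl ⟨0, ht⟩) = f ω0 (Sum.inl j) := fun h => h6 (h5.2 h)
          refine hinj ω ω' (hdi ω ω' (hω1.trans hω1'.symm) ?_)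
          rcases hmem ω ω' (Sum.inl ⟨0, ht⟩) (hω1.trans hω1'.symm) with h8 | ⟨j, hj⟩
          · exact h8
          · exfalso
            rcases hmem ω ω0 (Sum.inl ⟨0, ht⟩) hω1 with h8 | ⟨a, ha⟩
            · exact h6 h8
            rcases hmem ω' ω0 (Sum.inl ⟨0, ht⟩) hω1' with h8 | ⟨b, hb⟩
            · exact h7 h8
            have h9 := hadj' ω' ω0 _ _ _ _ hω1' hb (hj.symm.trans ha)
            simp at h9
    refine h2.trans ?_
    simp
  rw [Nat.card_eq_fintype_card]
  refine h1.trans (Nat.mul_le_mul_left _ ?_)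
  unfold SimpleGraph.copyCount
  refine Finset.card_le_card fun S hS => ?_
  obtain ⟨ω, _, rfl⟩ := Finset.mem_image.1 hS
  rw [Finset.mem_filter]
  exact ⟨Finset.mem_univ _, ⟨(f ω).isoToSubgraph⟩⟩

/-- the generalized Turan number `ex(n, K_{t,t}, K_{2,t+1})` -/
noncomputable def N (t n : ℕ) : ℕ :=
  sSup {c | ∃ G : SimpleGraph (Fin n),
    (completeBipartiteGraph (Fin 2) (Fin (t + 1))).Free G ∧
      c = G.copyCount (completeBipartiteGraph (Fin t) (Fin t))}

theorem bdd (t n : ℕ) : BddAbove {c | ∃ G : SimpleGraph (Fin n),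
    (completeBipartiteGraph (Fin 2) (Fin (t + 1))).Free G ∧
      c = G.copyCount (completeBipartiteGraph (Fin t) (Fin t))} := by
  classical
  refine Set.Finite.bddAbove ?_
  refine (Set.finite_range fun G : SimpleGraph (Fin n) =>
    G.copyCount (completeBipartiteGraph (Fin t) (Fin t))).subset ?_
  rintro c ⟨G, _, rfl⟩
  exact ⟨G, rfl⟩

theorem le_N {t n : ℕ} {G : SimpleGraph (Fin n)}
    (h : (completeBipartiteGraph (Fin 2) (Fin (t + 1))).Free G) :
    G.copyCount (completeBipartiteGraph (Fin t) (Fin t)) ≤ N t n :=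
  le_csSup (bdd t n) ⟨G, h, rfl⟩

/-- transfer to `Fin n` -/
theorem transfer {V : Type} [Finite V] {t : ℕ} (ht : 0 < t) (G : SimpleGraph V) {n : ℕ}
    (hn : Nat.card V ≤ n)
    (hG : (completeBipartiteGraph (Fin 2) (Fin (t + 1))).Free G) (Ω : Type) [Finite Ω]
    (f : Ω → Copy (Ktt t) G)
    (hinj : ∀ ω ω', (∀ i, ∃ j, f ω (Sum.inl i) = f ω' (Sum.inl j)) → ω = ω') :
    Nat.card Ω ≤ 2 * N t n := by
  classical
  have : Fintype V := Fintype.ofFinite V
  have hle : Fintype.card V ≤ Fintype.card (Fin n) := by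
    rwa [Fintype.card_fin, ← Nat.card_eq_fintype_card]
  obtain ⟨ι⟩ := Function.Embedding.nonempty_of_card_le hle
  have hfree : (completeBipartiteGraph (Fin 2) (Fin (t + 1))).Free (G.map ι) := by
    rintro ⟨f⟩
    have hadj : ∀ i j, (G.map ι).Adj (f (Sum.inl i)) (f (Sum.inr j)) := fun i j =>
      f.toHom.map_adj (by simp)
    have hex : ∀ x, ∃ y, ι y = f x := by
      intro x
      rcases x with i | j
      · obtain ⟨a, b, _, ha, _⟩ := (SimpleGraph.map_adj ι G _ _).1 (hadj i 0)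
        exact ⟨a, ha⟩
      · obtain ⟨a, b, _, _, hb⟩ := (SimpleGraph.map_adj ι G _ _).1 (hadj 0 j)
        exact ⟨b, hb⟩
    choose g hg using hex
    refine hG ⟨⟨⟨g, ?_⟩, ?_⟩⟩
    · intro x y hxy
      have h1 := f.toHom.map_adj hxy
      obtain ⟨a, b, hab, ha, hb⟩ := (SimpleGraph.map_adj ι G _ _).1 h1
      have ha' : a = g x := ι.injective (by rw [ha, hg]; rfl)
      have hb' : b = g y := ι.injective (by rw [hb, hg]; rfl)
      rw [← ha', ← hb']
      exact hab
    · intro x y hxy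
      refine f.injective ?_
      have h1 : g x = g y := hxy
      have h2 : f x = f y := by rw [← hg x, ← hg y, h1]
      exact h2
  refine (count ht (G.map ι) Ω (fun ω => (SimpleGraph.Embedding.map ι G).toCopy.comp (f ω))
    ?_).trans (Nat.mul_le_mul_left _ (le_N hfree))
  intro ω ω' h
  refine hinj ω ω' fun i => ?_
  obtain ⟨j, hj⟩ := h i
  exact ⟨j, ι.injective hj⟩

end KC
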