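import Mathlib
import Pool.Agent.Work.MP_63048f_co.C1

/-!
# MP_63048f_co, lower bound of order `n ^ 2 / t ^ 3`, part 2 (helper32): the graph

`F` is a field of characteristic 2 and `V` a set of points of `F ^ 3`.  The graph is
`(x, y, z) ~ (x', y', z')` iff `z + z' = x y' + x' y + κ` (in each of `k` disjoint copies of `V`).
The line `y = A + B x, z = C + D x` is completely joined to the line
`y = D + B x, z = C + κ + A x`.
-/

set_option autoImplicit false
set_option linter.unusedSectionVars false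

namespace KC

open SimpleGraph

variable {F : Type} [Field F] [CharP F 2]

/-- the vertices: `k` copies of `V` -/
abbrev Vt (k : ℕ) (V : Set (F × F × F)) : Type := Fin k × V

/-- the graph -/
def Gr (k : ℕ) (V : Set (F × F × F)) (κ : F) (hκ : κ ≠ 0) : SimpleGraph (Vt k V) where
  Adj v w := v.1 = w.1 ∧
    v.2.1.2.2 + w.2.1.2.2 = v.2.1.1 * w.2.1.2.1 + w.2.1.1 * v.2.1.2.1 + κ
  symm := ⟨fun v w h => ⟨h.1.symm, by rw [add_comm, h.2]; ring⟩⟩
  loopless := ⟨fun v h => hκ (by
    have h2 := h.2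
    rwa [CharTwo.add_self_eq_zero, CharTwo.add_self_eq_zero, zero_add, eq_comm] at h2)⟩

/-- the point with parameter `x` of a line -/
def pt (A B C D x : F) : F × F × F := (x, A + B * x, C + D * x)

/-- every line meets `V` in at most `t` points -/
def LineLe (V : Set (F × F × F)) (t : ℕ) : Prop :=
  (∀ A B C D : F, Nat.card {x : F // pt A B C D x ∈ V} ≤ t) ∧
    ∀ x C D : F, Nat.card {y : F // (x, y, C + D * y) ∈ V} ≤ t

variable [Finite F]

/-- the graph is `K_{2,t+1}`-free -/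
theorem Gr_free {k t : ℕ} {V : Set (F × F × F)} {κ : F} {hκ : κ ≠ 0} (hV : LineLe V t) :
    (completeBipartiteGraph (Fin 2) (Fin (t + 1))).Free (Gr k V κ hκ) := by
  rintro ⟨f⟩
  have hinj := f.injective
  have hadj : ∀ (i : Fin 2) (j : Fin (t + 1)),
      (Gr k V κ hκ).Adj (f (Sum.inl i)) (f (Sum.inr j)) :=
    fun i j => f.toHom.map_adj (by simp)
  have hAB : f (Sum.inl 0) ≠ f (Sum.inl 1) := fun h => by
    have := hinj h
    simp at this
  obtain ⟨⟨j1, ⟨⟨x1, y1, z1⟩, hP1⟩⟩, hP1'⟩ : ∃ P, P = f (Sum.inl 0) := ⟨_, rfl⟩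
  obtain ⟨⟨j2, ⟨⟨x2, y2, z2⟩, hP2⟩⟩, hP2'⟩ : ∃ P, P = f (Sum.inl 1) := ⟨_, rfl⟩
  have e1 : ∀ j, j1 = (f (Sum.inr j)).1 ∧ z1 + (f (Sum.inr j)).2.1.2.2 =
      x1 * (f (Sum.inr j)).2.1.2.1 + (f (Sum.inr j)).2.1.1 * y1 + κ := by
    intro j
    have h := hadj 0 j
    rw [← hP1'] at h
    exact h
  have e2 : ∀ j, j2 = (f (Sum.inr j)).1 ∧ z2 + (f (Sum.inr j)).2.1.2.2 =
      x2 * (f (Sum.inr j)).2.1.2.1 + (f (Sum.inr j)).2.1.1 * y2 + κ := by
    intro j
    have h := hadj 1 j
    rw [← hP2'] at h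
    exact h
  have e3 : ∀ j, z1 + z2 = (x1 + x2) * (f (Sum.inr j)).2.1.2.1 +
      (f (Sum.inr j)).2.1.1 * (y1 + y2) := by
    intro j
    have h1 := (e1 j).2
    have h2 := (e2 j).2
    have h3 : ∀ a : F, a + a = 0 := CharTwo.add_self_eq_zero
    linear_combination h1 + h2 - h3 (f (Sum.inr j)).2.1.2.2 + h3 κ
  have e4 : ∀ j, (f (Sum.inr j)).2.1.2.2 =
      x1 * (f (Sum.inr j)).2.1.2.1 + (f (Sum.inr j)).2.1.1 * y1 + κ + z1 := by
    intro j
    have h1 := (e1 j).2
    have h3 : ∀ a : F, a + a = 0 := CharTwo.add_self_eq_zero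
    linear_combination h1 - h3 z1
  have e5 : ∀ j j', (f (Sum.inr j)).2.1.1 = (f (Sum.inr j')).2.1.1 →
      (f (Sum.inr j)).2.1.2.1 = (f (Sum.inr j')).2.1.2.1 → j = j' := by
    intro j j' hx hy
    have hz : (f (Sum.inr j)).2.1.2.2 = (f (Sum.inr j')).2.1.2.2 := by
      rw [e4, e4, hx, hy]
    have h6 : f (Sum.inr j) = f (Sum.inr j') :=
      Prod.ext ((e1 j).1.symm.trans (e1 j').1)
        (Subtype.ext (Prod.ext hx (Prod.ext hy hz)))
    simpa using hinj h6
  by_cases hx : x1 + x2 = 0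
  · by_cases hy : y1 + y2 = 0
    · have h1 : x1 = x2 := CharTwo.add_eq_zero.1 hx
      have h2 : y1 = y2 := CharTwo.add_eq_zero.1 hy
      have h3 := e3 0
      rw [hx, hy, zero_mul, mul_zero, add_zero] at h3
      have h4 : z1 = z2 := CharTwo.add_eq_zero.1 h3
      have h5 : j1 = j2 := (e1 0).1.trans (e2 0).1.symm
      subst h1 h2 h4 h5
      exact hAB (hP1'.symm.trans hP2')
    · have h0 : ∀ j, (f (Sum.inr j)).2.1.1 = (z1 + z2) / (y1 + y2) := by
        intro j
        have h3 := e3 j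
        rw [hx, zero_mul, zero_add] at h3
        rw [eq_div_iff hy, h3]
      have h7 := hV.2 ((z1 + z2) / (y1 + y2)) ((z1 + z2) / (y1 + y2) * y1 + κ + z1) x1
      have h8 : Nat.card (Fin (t + 1)) ≤ Nat.card {y : F // ((z1 + z2) / (y1 + y2), y,
          (z1 + z2) / (y1 + y2) * y1 + κ + z1 + x1 * y) ∈ V} := by
        refine Nat.card_le_card_of_injective
          (fun j => ⟨(f (Sum.inr j)).2.1.2.1, ?_⟩) ?_
        · have h9 := (f (Sum.inr j)).2.2
          have h10 : (f (Sum.inr j)).2.1 = ((z1 + z2) / (y1 + y2), (f (Sum.inr j)).2.1.2.1,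
              (z1 + z2) / (y1 + y2) * y1 + κ + z1 + x1 * (f (Sum.inr j)).2.1.2.1) := by
            refine Prod.ext (h0 j) (Prod.ext rfl ?_)
            simp only
            rw [e4 j, h0 j]
            ring
          rwa [h10] at h9
        · intro j j' hjj
          simp only [Subtype.mk.injEq] at hjj
          exact e5 j j' ((h0 j).trans (h0 j').symm) hjj
      rw [Nat.card_fin] at h8
      omega
  · have h0 : ∀ j, (f (Sum.inr j)).2.1.2.1 = (z1 + z2) / (x1 + x2) +
        (y1 + y2) / (x1 + x2) * (f (Sum.inr j)).2.1.1 := by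
      intro j
      have h3 := e3 j
      have h4 : ∀ a : F, a + a = 0 := CharTwo.add_self_eq_zero
      field_simp
      linear_combination -h3 - h4 ((y1 + y2) * (f (Sum.inr j)).2.1.1)
    have h7 := hV.1 ((z1 + z2) / (x1 + x2)) ((y1 + y2) / (x1 + x2))
      (x1 * ((z1 + z2) / (x1 + x2)) + κ + z1) (x1 * ((y1 + y2) / (x1 + x2)) + y1)
    have h8 : Nat.card (Fin (t + 1)) ≤ Nat.card {x : F // pt ((z1 + z2) / (x1 + x2))
        ((y1 + y2) / (x1 + x2)) (x1 * ((z1 + z2) / (x1 + x2)) + κ + z1)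
        (x1 * ((y1 + y2) / (x1 + x2)) + y1) x ∈ V} := by
      refine Nat.card_le_card_of_injective
        (fun j => ⟨(f (Sum.inr j)).2.1.1, ?_⟩) ?_
      · have h9 := (f (Sum.inr j)).2.2
        have h10 : (f (Sum.inr j)).2.1 = pt ((z1 + z2) / (x1 + x2))
            ((y1 + y2) / (x1 + x2)) (x1 * ((z1 + z2) / (x1 + x2)) + κ + z1)
            (x1 * ((y1 + y2) / (x1 + x2)) + y1) (f (Sum.inr j)).2.1.1 := by
          refine Prod.ext rfl (Prod.ext (h0 j) ?_)
          simp only [pt]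
          rw [e4 j, h0 j]
          ring
        rwa [h10] at h9
      · intro j j' hjj
        simp only [Subtype.mk.injEq] at hjj
        exact e5 j j' hjj (by rw [h0 j, h0 j', hjj])
    rw [Nat.card_fin] at h8
    omega

/-- the parameters of the copies of `K_{t,t}` -/
def Om (k t : ℕ) (V : Set (F × F × F)) (κ : F) : Type :=
  {w : Fin k × F × F × F × F //
    Nat.card {x : F // pt w.2.1 w.2.2.1 w.2.2.2.1 w.2.2.2.2 x ∈ V} = t ∧
      Nat.card {x : F // pt w.2.2.2.2 w.2.2.1 (w.2.2.2.1 + κ) w.2.1 x ∈ V} = t}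

instance (k t : ℕ) (V : Set (F × F × F)) (κ : F) : Finite (Om k t V κ) := Subtype.finite

/-- enumeration of the points of a line -/
noncomputable def en {t : ℕ} {V : Set (F × F × F)} {A B C D : F}
    (h : Nat.card {x : F // pt A B C D x ∈ V} = t) : Fin t ≃ {x : F // pt A B C D x ∈ V} :=
  (Finite.equivFinOfCardEq h).symm

/-- the copy of `K_{t,t}` -/
noncomputable def cpy {k t : ℕ} {V : Set (F × F × F)} {κ : F} (hκ : κ ≠ 0) (w : Om k t V κ) :
    Copy (Ktt t) (Gr k V κ hκ) :=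
  ⟨⟨Sum.elim (fun i => (w.1.1, ⟨_, (en w.2.1 i).2⟩)) (fun i => (w.1.1, ⟨_, (en w.2.2 i).2⟩)), by
    have key : ∀ i j, (Gr k V κ hκ).Adj (w.1.1, ⟨_, (en w.2.1 i).2⟩)
        (w.1.1, ⟨_, (en w.2.2 j).2⟩) := by
      intro i j
      refine ⟨rfl, ?_⟩
      simp only [pt]
      have h3 : ∀ a : F, a + a = 0 := CharTwo.add_self_eq_zero
      linear_combination h3 w.1.2.2.2.1 -
        h3 (w.1.2.2.1 * ((en w.2.1 i : F) * (en w.2.2 j : F)))
    intro a b hab
    rcases a with a | a <;> rcases b with b | b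
    · simp at hab
    · exact key a b
    · exact (key b a).symm
    · simp at hab⟩, by
    have key : ∀ i j, (Gr k V κ hκ).Adj (w.1.1, ⟨_, (en w.2.1 i).2⟩)
        (w.1.1, ⟨_, (en w.2.2 j).2⟩) := by
      intro i j
      refine ⟨rfl, ?_⟩
      simp only [pt]
      have h3 : ∀ a : F, a + a = 0 := CharTwo.add_self_eq_zero
      linear_combination h3 w.1.2.2.2.1 -
        h3 (w.1.2.2.1 * ((en w.2.1 i : F) * (en w.2.2 j : F)))
    intro a b hab
    rcases a with a | a <;> rcases b with b | b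
    · have h1 : (en w.2.1 a : F) = en w.2.1 b := congrArg (fun v => v.2.1.1) hab
      rw [(en w.2.1).injective (Subtype.ext h1)]
    · exact absurd hab (key a b).ne
    · exact absurd hab.symm (key b a).ne
    · have h1 : (en w.2.2 a : F) = en w.2.2 b := congrArg (fun v => v.2.1.1) hab
      rw [(en w.2.2).injective (Subtype.ext h1)]⟩

/-- the basic inequality -/
theorem Om_le {k t n : ℕ} (ht : 2 ≤ t) {V : Set (F × F × F)} {κ : F} (hκ : κ ≠ 0)
    (hV : LineLe V t) (hn : k * Nat.card V ≤ n) : Nat.card (Om k t V κ) ≤ 2 * N t n := by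
  refine transfer (by omega) (Gr k V κ hκ) (n := n) ?_ (Gr_free hV) (Om k t V κ)
    (cpy hκ) ?_
  · rw [Nat.card_prod, Nat.card_fin]
    exact hn
  · intro w w' h
    obtain ⟨a, ha⟩ := h ⟨0, by omega⟩
    obtain ⟨b, hb⟩ := h ⟨1, by omega⟩
    have h01 : (en w.2.1 ⟨0, by omega⟩ : F) ≠ en w.2.1 ⟨1, by omega⟩ := by
      intro h1
      have h2 := (en w.2.1).injective (Subtype.ext h1)
      simp at h2
    obtain ⟨⟨j, A, B, C, D⟩, hw⟩ := w
    obtain ⟨⟨j', A', B', C', D'⟩, hw'⟩ := w'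
    simp only at h01
    have hj : j = j' := congrArg (fun v => v.1) ha
    have xa : (en hw.1 ⟨0, by omega⟩ : F) = en hw'.1 a := congrArg (fun v => v.2.1.1) ha
    have xb : (en hw.1 ⟨1, by omega⟩ : F) = en hw'.1 b := congrArg (fun v => v.2.1.1) hb
    have ya : A + B * (en hw.1 ⟨0, by omega⟩ : F) = A' + B' * (en hw'.1 a : F) :=
      congrArg (fun v => v.2.1.2.1) ha
    have yb : A + B * (en hw.1 ⟨1, by omega⟩ : F) = A' + B' * (en hw'.1 b : F) :=
      congrArg (fun v => v.2.1.2.1) hb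
    have za : C + D * (en hw.1 ⟨0, by omega⟩ : F) = C' + D' * (en hw'.1 a : F) :=
      congrArg (fun v => v.2.1.2.2) ha
    have zb : C + D * (en hw.1 ⟨1, by omega⟩ : F) = C' + D' * (en hw'.1 b : F) :=
      congrArg (fun v => v.2.1.2.2) hb
    rw [← xa] at ya za
    rw [← xb] at yb zb
    have hne := sub_ne_zero.2 h01
    have hB : B = B' := by
      have h3 : (B - B') * ((en hw.1 ⟨0, by omega⟩ : F) - en hw.1 ⟨1, by omega⟩) = 0 := by
        linear_combination ya - yb
      exact sub_eq_zero.1 ((mul_eq_zero.1 h3).resolve_right hne)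
    have hD : D = D' := by
      have h3 : (D - D') * ((en hw.1 ⟨0, by omega⟩ : F) - en hw.1 ⟨1, by omega⟩) = 0 := by
        linear_combination za - zb
      exact sub_eq_zero.1 ((mul_eq_zero.1 h3).resolve_right hne)
    subst hB hD hj
    have hA : A = A' := add_right_cancel ya
    have hC : C = C' := add_right_cancel za
    subst hA hC
    rfl

end KC
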