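import Mathlib
import Pool.Agent.Work.MP_63048f_co.C2

/-!
# MP_63048f_co, lower bound of order `n ^ 2 / t ^ 3`, part 3 (helper32): fields of characteristic 2
-/

set_option autoImplicit false
set_option linter.unusedSectionVars false

namespace KC

section alg

variable (F : Type) [Field F] [CharP F 2]

/-- the additive map `w ↦ w ^ 2 + w` -/
def wp : F →+ F where
  toFun w := w ^ 2 + w
  map_zero' := by simp
  map_add' a b := by
    rw [CharTwo.add_sq]
    ring

/-- its image -/
def U : AddSubgroup F := (wp F).range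

variable {F}

theorem mem_U {x : F} : x ∈ U F ↔ ∃ w, w ^ 2 + w = x := Iff.rfl

theorem wp_mem (w : F) : w ^ 2 + w ∈ U F := ⟨w, rfl⟩

theorem card_ker_wp : Nat.card (wp F).ker = 2 := by
  have h : ((wp F).ker : Set F) = {0, 1} := by
    ext w
    simp only [SetLike.mem_coe, AddMonoidHom.mem_ker, Set.mem_insert_iff, Set.mem_singleton_iff]
    constructor
    · intro h
      have h1 : w * (w + 1) = 0 := by
        have h2 : w ^ 2 + w = 0 := h
        linear_combination h2
      rcases mul_eq_zero.1 h1 with h2 | h2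
      · exact Or.inl h2
      · exact Or.inr (CharTwo.add_eq_zero.1 h2)
    · rintro (h | h)
      · rw [h]
        exact map_zero _
      · rw [h]
        show (1 : F) ^ 2 + 1 = 0
        rw [one_pow]
        exact CharTwo.add_self_eq_zero 1
  have h2 : Nat.card (wp F).ker = ((wp F).ker : Set F).ncard := rfl
  rw [h2, h, Set.ncard_pair zero_ne_one]

variable [Finite F]

theorem card_U : Nat.card (U F) * 2 = Nat.card F := by
  have h := AddSubgroup.card_mul_index (wp F).ker
  rw [AddSubgroup.index_ker, card_ker_wp] at h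
  rw [← h, mul_comm]
  rfl

theorem index_U : (U F).index = 2 := by
  have h := AddSubgroup.card_mul_index (U F)
  have h1 : 0 < Nat.card (U F) := Nat.card_pos
  have h2 := card_U (F := F)
  exact Nat.eq_of_mul_eq_mul_left h1 (h.trans h2.symm)

theorem add_mem_U_iff {a b : F} : a + b ∈ U F ↔ (a ∈ U F ↔ b ∈ U F) :=
  AddSubgroup.add_mem_iff_of_index_two index_U

theorem exists_not_mem_U : ∃ η : F, η ∉ U F := by
  by_contra h
  push Not at h
  have h1 : U F = ⊤ := (AddSubgroup.eq_top_iff' _).2 h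
  have h2 := index_U (F := F)
  rw [h1, AddSubgroup.index_top] at h2
  omega

theorem card_G {ν : ℕ} (b : Fin ν → F) :
    Nat.card F ≤ 2 ^ ν * Nat.card {ρ : F // ∀ j, ρ * b j ∈ U F} := by
  set ψ : F →+ (Fin ν → F ⧸ U F) := AddMonoidHom.pi
    (fun j => (QuotientAddGroup.mk' (U F)).comp (AddMonoidHom.mulRight (b j))) with hψ
  have h1 := AddSubgroup.card_mul_index ψ.ker
  rw [AddSubgroup.index_ker] at h1
  have h2 : Nat.card ψ.range ≤ 2 ^ ν := by
    have h3 : Nat.card ψ.range ≤ Nat.card (Fin ν → F ⧸ U F) :=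
      Nat.card_le_card_of_injective _ Subtype.val_injective
    have h4 : Nat.card (F ⧸ U F) = 2 := index_U
    rw [Nat.card_fun, Nat.card_fin, h4] at h3
    exact h3
  have h3 : Nat.card ψ.ker ≤ Nat.card {ρ : F // ∀ j, ρ * b j ∈ U F} := by
    refine Nat.card_le_card_of_injective (fun ρ => ⟨ρ.1, fun j => ?_⟩) ?_
    · have h4 : ψ ρ.1 = 0 := ρ.2
      have h5 : ψ ρ.1 j = 0 := by rw [h4]; rfl
      exact (QuotientAddGroup.eq_zero_iff _).1 h5
    · intro a c h
      simp only [Subtype.mk.injEq] at h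
      exact Subtype.ext h
  calc Nat.card F = Nat.card ψ.ker * Nat.card ψ.range := h1.symm
    _ ≤ Nat.card {ρ : F // ∀ j, ρ * b j ∈ U F} * 2 ^ ν := Nat.mul_le_mul h3 h2
    _ = _ := mul_comm _ _

theorem span_U [Algebra (ZMod 2) F] {ν : ℕ} (b : Fin ν → F) {ρ : F} (h : ∀ j, ρ * b j ∈ U F)
    (c : Fin ν → ZMod 2) : ρ * Fintype.linearCombination (ZMod 2) b c ∈ U F := by
  rw [Fintype.linearCombination_apply, Finset.mul_sum]
  refine sum_mem fun i _ => ?_
  have h1 : ∀ x : ZMod 2, x = 0 ∨ x = 1 := by decide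
  rcases h1 (c i) with h2 | h2
  · rw [h2, zero_smul, mul_zero]
    exact zero_mem _
  · rw [h2, one_smul]
    exact h i

/-- the data of the construction -/
theorem exists_data [Algebra (ZMod 2) F] {ν m : ℕ} (b : Fin ν → F)
    (hb : LinearIndependent (ZMod 2) b) (hm : m ≤ 2 ^ ν) (hq : 2 ^ (ν + 1) ≤ Nat.card F) :
    ∃ (T : Fin m → F) (κ : F) (R : Set F), Function.Injective T ∧ κ ≠ 0 ∧
      (∀ ρ ∈ R, ρ ≠ 0 ∧ (∀ i, ρ * T i ∈ U F) ∧ ρ * κ ∉ U F) ∧
      Nat.card F ≤ 2 ^ (ν + 1) * Nat.card R := by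
  classical
  obtain ⟨η, hη⟩ := exists_not_mem_U (F := F)
  have hG := card_G b
  have h1 : 1 < Nat.card {ρ : F // ∀ j, ρ * b j ∈ U F} := by
    by_contra hcon
    have h2 : Nat.card {ρ : F // ∀ j, ρ * b j ∈ U F} ≤ 1 := not_lt.1 hcon
    have h3 : 2 ^ ν * Nat.card {ρ : F // ∀ j, ρ * b j ∈ U F} ≤ 2 ^ ν * 1 :=
      Nat.mul_le_mul_left _ h2
    have h4 : 0 < 2 ^ ν := by positivity
    rw [pow_succ] at hq
    omega
  obtain ⟨ρ1, hρ1⟩ : ∃ ρ1 : {ρ : F // ∀ j, ρ * b j ∈ U F}, (ρ1 : F) ≠ 0 := by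
    by_contra hcon
    push Not at hcon
    have h2 : Subsingleton {ρ : F // ∀ j, ρ * b j ∈ U F} :=
      ⟨fun a c => Subtype.ext ((hcon a).trans (hcon c).symm)⟩
    have h3 := Finite.card_le_one_iff_subsingleton.2 h2
    omega
  obtain ⟨τ⟩ : Nonempty (Fin m ↪ (Fin ν → ZMod 2)) := by
    refine Function.Embedding.nonempty_of_card_le ?_
    rw [Fintype.card_fin, Fintype.card_fun, Fintype.card_fin, ZMod.card]
    exact hm
  have hη0 : η ≠ 0 := fun h => hη (by rw [h]; exact zero_mem _)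
  refine ⟨fun i => Fintype.linearCombination (ZMod 2) b (τ i), η / ρ1,
    {ρ : F | (∀ j, ρ * b j ∈ U F) ∧ ρ * (η / ρ1) ∉ U F}, ?_, div_ne_zero hη0 hρ1, ?_, ?_⟩
  · intro i j hij
    exact τ.injective (hb.fintypeLinearCombination_injective hij)
  · rintro ρ ⟨h2, h3⟩
    refine ⟨?_, fun i => span_U b h2 _, h3⟩
    rintro rfl
    exact h3 (by rw [zero_mul]; exact zero_mem _)
  · have h2 : Nat.card {ρ : F // ∀ j, ρ * b j ∈ U F} ≤
        Nat.card ({ρ : F | (∀ j, ρ * b j ∈ U F) ∧ ρ * (η / ρ1) ∉ U F} × Bool) := by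
      have hadd : ∀ ρ : {ρ : F // ∀ j, ρ * b j ∈ U F}, (ρ : F) * (η / ρ1) ∈ U F →
          (∀ j, ((ρ : F) + ρ1) * b j ∈ U F) ∧ ((ρ : F) + ρ1) * (η / ρ1) ∉ U F := by
        intro ρ hρ
        refine ⟨fun j => ?_, ?_⟩
        · rw [add_mul]
          exact add_mem (ρ.2 j) (ρ1.2 j)
        · rw [add_mul, mul_div_cancel₀ _ hρ1, add_mem_U_iff]
          exact fun h => hη (h.1 hρ)
      refine Nat.card_le_card_of_injective (fun ρ =>
        if h : (ρ : F) * (η / ρ1) ∈ U F then (⟨(ρ : F) + ρ1, hadd ρ h⟩, false)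
          else (⟨ρ, ρ.2, h⟩, true)) ?_
      intro ρ ρ' hρ
      by_cases h3 : (ρ : F) * (η / ρ1) ∈ U F
      · by_cases h4 : (ρ' : F) * (η / ρ1) ∈ U F
        · simp only [h3, h4, dite_true, Prod.mk.injEq, Subtype.mk.injEq, and_true] at hρ
          exact Subtype.ext (add_right_cancel hρ)
        · simp [h3, h4] at hρ
      · by_cases h4 : (ρ' : F) * (η / ρ1) ∈ U F
        · simp [h3, h4] at hρ
        · simp only [h3, h4, dite_false, Prod.mk.injEq, Subtype.mk.injEq, and_true] at hρ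
          exact Subtype.ext hρ
    rw [Nat.card_prod] at h2
    have h3 : Nat.card Bool = 2 := by simp
    rw [h3] at h2
    calc Nat.card F ≤ 2 ^ ν * Nat.card {ρ : F // ∀ j, ρ * b j ∈ U F} := hG
      _ ≤ 2 ^ ν * (Nat.card {ρ : F | (∀ j, ρ * b j ∈ U F) ∧ ρ * (η / ρ1) ∉ U F} * 2) :=
        Nat.mul_le_mul_left _ h2
      _ = _ := by ring

/-- square roots -/
theorem exists_sqrt (a : F) : ∃ s : F, s ^ 2 = a := by
  obtain ⟨s, hs⟩ := FiniteField.isSquare_of_char_two (ringChar.eq F 2) a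
  exact ⟨s, by rw [sq, hs]⟩

end alg

section roots

open Polynomial

variable {F : Type} [Field F]

theorem card_root_le [Finite F] {P : F → Prop} (p : F[X]) (hp : p ≠ 0)
    (h : ∀ x, P x → p.eval x = 0) : Nat.card {x : F // P x} ≤ p.natDegree := by
  classical
  have h1 : Nat.card {x : F // P x} ≤ Nat.card (p.roots.toFinset) := by
    refine Nat.card_le_card_of_injective (fun x => ⟨x.1, ?_⟩) ?_
    · rw [Multiset.mem_toFinset, mem_roots hp]
      exact h _ x.2
    · intro a b hab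
      simp only [Subtype.mk.injEq] at hab
      exact Subtype.ext hab
  have h2 : Nat.card (p.roots.toFinset) = p.roots.toFinset.card := by
    rw [Nat.card_eq_fintype_card, Fintype.card_coe]
  rw [h2] at h1
  exact h1.trans ((Multiset.toFinset_card_le _).trans (card_roots' _))

/-- at most two roots of a quadratic equation -/
theorem card_quad_le [Finite F] {P : F → Prop} {a b c : F} (hab : a ≠ 0 ∨ b ≠ 0)
    (h : ∀ x, P x → a * x ^ 2 + b * x + c = 0) : Nat.card {x : F // P x} ≤ 2 := by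
  refine (card_root_le (C a * X ^ 2 + C b * X + C c) ?_ ?_).trans natDegree_quadratic_le
  · intro h0
    have h1 := congrArg (fun p => coeff p 2) h0
    have h2 := congrArg (fun p => coeff p 1) h0
    simp [coeff_C] at h1 h2
    rcases hab with h3 | h3
    · exact h3 h1
    · exact h3 h2
  · intro x hx
    simpa using h x hx

/-- at most three roots of a cubic equation -/
theorem card_cubic_le [Finite F] {P : F → Prop} {a b : F}
    (h : ∀ x, P x → x ^ 3 + a * x + b = 0) : Nat.card {x : F // P x} ≤ 3 := by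
  have h3 : (C 1 * X ^ 3 + C 0 * X ^ 2 + C a * X + C b : F[X]) ≠ 0 := by
    intro h0
    have h1 := congrArg (fun p => coeff p 3) h0
    simp at h1
  refine (card_root_le _ h3 ?_).trans natDegree_cubic_le
  intro x hx
  simpa using h x hx

theorem card_or_le [Finite F] (P Q : F → Prop) :
    Nat.card {x : F // P x ∨ Q x} ≤ Nat.card {x : F // P x} + Nat.card {x : F // Q x} :=
  Set.ncard_union_le {x | P x} {x | Q x}

theorem card_exists_le [Finite F] {m d : ℕ} (P : Fin m → F → Prop)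
    (h : ∀ i, Nat.card {x : F // P i x} ≤ d) : Nat.card {x : F // ∃ i, P i x} ≤ m * d := by
  classical
  have h1 : ∀ i, Nonempty ({x : F // P i x} ↪ Fin d) := by
    intro i
    have : Fintype {x : F // P i x} := Fintype.ofFinite _
    refine Function.Embedding.nonempty_of_card_le ?_
    rw [Fintype.card_fin, ← Nat.card_eq_fintype_card]
    exact h i
  have g : ∀ i, {x : F // P i x} ↪ Fin d := fun i => (h1 i).some
  have h2 : Nat.card {x : F // ∃ i, P i x} ≤ Nat.card (Fin m × Fin d) := by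
    refine Nat.card_le_card_of_injective (fun x => (x.2.choose, g _ ⟨x.1, x.2.choose_spec⟩)) ?_
    intro x y hxy
    simp only [Prod.mk.injEq] at hxy
    obtain ⟨h3, h4⟩ := hxy
    have h5 : ∀ i j (hx : P i x.1) (hy : P j y.1), i = j → g i ⟨x.1, hx⟩ = g j ⟨y.1, hy⟩ →
        x.1 = y.1 := by
      rintro i j hx hy rfl h6
      exact Subtype.mk.inj ((g i).injective h6)
    exact Subtype.ext (h5 _ _ _ _ h3 h4)
  rwa [Nat.card_prod, Nat.card_fin, Nat.card_fin] at h2

end roots

end KC
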