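import Mathlib
import Pool.Agent.Work.MP_63048f_co.C3

/-!
# MP_63048f_co, lower bound of order `n ^ 2 / t ^ 3`, part 4 (helper32): the quadrics

`V` is the union of the quadrics `z = x ^ 2 + x y + η y ^ 2 + T i`.
-/

set_option autoImplicit false
set_option linter.unusedSectionVars false

namespace KC

variable {F : Type} [Field F]

/-- the quadratic form -/
def Nf (η x y : F) : F := x ^ 2 + x * y + η * y ^ 2

/-- the union of the quadrics -/
def VQ {m : ℕ} (η : F) (T : Fin m → F) : Set (F × F × F) :=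
  {p | ∃ i, p.2.2 = Nf η p.1 p.2.1 + T i}

variable [CharP F 2]

theorem two_eq' : (2 : F) = 0 := CharTwo.two_eq_zero

theorem NB_ne {η : F} (hη : η ∉ U F) (B : F) : 1 + B + η * B ^ 2 ≠ 0 := by
  intro h
  by_cases hB : B = 0
  · rw [hB] at h
    simp at h
  · refine hη ((mem_U).2 ⟨B⁻¹, ?_⟩)
    have h2 := two_eq' (F := F)
    field_simp
    linear_combination -h + (1 + B) * h2

theorem eta_ne {η : F} (hη : η ∉ U F) : η ≠ 0 := by
  rintro rfl
  exact hη (zero_mem _)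

theorem line_iff {η A B C D x τ : F} :
    C + D * x = Nf η x (A + B * x) + τ ↔
      (1 + B + η * B ^ 2) * x ^ 2 + (A + D) * x + (C + η * A ^ 2 + τ) = 0 := by
  have h2 := two_eq' (F := F)
  unfold Nf
  constructor
  · intro h
    linear_combination -h + (C + D * x + -(η * A * B * x)) * h2
  · intro h
    linear_combination -h + (C + D * x + -(η * A * B * x)) * h2

variable [Finite F]

theorem lineLe_VQ {m : ℕ} {η : F} (hη : η ∉ U F) (T : Fin m → F) : LineLe (VQ η T) (m * 2) := by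
  constructor
  · intro A B C D
    refine card_exists_le (fun i x => C + D * x = Nf η x (A + B * x) + T i) fun i => ?_
    refine card_quad_le (a := 1 + B + η * B ^ 2) (b := A + D) (c := C + η * A ^ 2 + T i)
      (Or.inl (NB_ne hη B)) fun x hx => ?_
    exact line_iff.1 hx
  · intro x C D
    refine card_exists_le (fun i y => C + D * y = Nf η x y + T i) fun i => ?_
    refine card_quad_le (a := η) (b := x + D) (c := C + x ^ 2 + T i)
      (Or.inl (eta_ne hη)) fun y hy => ?_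
    have h2 := two_eq' (F := F)
    unfold Nf at hy
    linear_combination -hy + (C + D * y) * h2

theorem card_VQ {m : ℕ} {η : F} (T : Fin m → F) :
    Nat.card (VQ η T) ≤ m * (Nat.card F * Nat.card F) := by
  have h : Nat.card (VQ η T) ≤ Nat.card (Fin m × F × F) := by
    refine Nat.card_le_card_of_injective (fun p => (p.2.choose, p.1.1, p.1.2.1)) ?_
    intro p p' hp
    simp only [Prod.mk.injEq] at hp
    obtain ⟨h1, h2, h3⟩ := hp
    have h4 := p.2.choose_spec
    have h5 := p'.2.choose_spec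
    refine Subtype.ext (Prod.ext h2 (Prod.ext h3 ?_))
    rw [h4, h5, h1, h2, h3]
  rwa [Nat.card_prod, Nat.card_prod, Nat.card_fin] at h

theorem ge_VQ {m : ℕ} {η : F} (hη : η ∉ U F) {T : Fin m → F} (hT : Function.Injective T)
    {A B C D ρ : F} (hρ : ρ * (A + D) ^ 2 = 1 + B + η * B ^ 2)
    (hU : ∀ i, ρ * (C + η * A ^ 2 + T i) ∈ U F) :
    m * 2 ≤ Nat.card {x : F // pt A B C D x ∈ VQ η T} := by
  have hNB := NB_ne hη B
  set P := 1 + B + η * B ^ 2 with hP
  have hS : A + D ≠ 0 := by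
    intro h
    rw [h] at hρ
    apply hNB
    rw [← hρ]
    ring
  have hρ0 : ρ ≠ 0 := by
    rintro rfl
    rw [zero_mul] at hρ
    exact hNB hρ.symm
  choose w hw using fun i => mem_U.1 (hU i)
  have h2 := two_eq' (F := F)
  have hsol : ∀ i, ∀ ε : F, ε ^ 2 + ε = 0 →
      C + D * ((A + D) / P * (w i + ε)) =
        Nf η ((A + D) / P * (w i + ε)) (A + B * ((A + D) / P * (w i + ε))) + T i := by
    intro i ε hε
    rw [line_iff, ← hP]
    have h3 : ρ * (C + η * A ^ 2 + T i) = (w i + ε) ^ 2 + (w i + ε) := by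
      linear_combination -hw i - hε - w i * ε * h2
    have h4 : (A + D) ^ 2 / P = ρ⁻¹ := by
      rw [div_eq_iff hNB, ← hρ]
      field_simp
    have h5 : P * ((A + D) / P * (w i + ε)) ^ 2 + (A + D) * ((A + D) / P * (w i + ε)) =
        (A + D) ^ 2 / P * ((w i + ε) ^ 2 + (w i + ε)) := by
      field_simp
    rw [h5, h4, ← h3, ← mul_assoc, inv_mul_cancel₀ hρ0, one_mul]
    exact CharTwo.add_self_eq_zero _
  have hb : ∀ b : Bool, ((if b then 1 else 0 : F)) ^ 2 + (if b then 1 else 0 : F) = 0 := by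
    intro b
    cases b
    · simp
    · simp only [if_true, one_pow]
      exact CharTwo.add_self_eq_zero 1
  have hle : Nat.card (Fin m × Bool) ≤ Nat.card {x : F // pt A B C D x ∈ VQ η T} := by
    refine Nat.card_le_card_of_injective (fun q =>
      ⟨(A + D) / P * (w q.1 + if q.2 then 1 else 0), q.1, hsol _ _ (hb _)⟩) ?_
    rintro ⟨i, b⟩ ⟨i', b'⟩ hq
    simp only [Subtype.mk.injEq] at hq
    have h3 := hsol i _ (hb b)
    have h4 := hsol i' _ (hb b')
    rw [← hq] at h4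
    have h5 : T i = T i' := add_left_cancel (h3.symm.trans h4)
    have h6 := hT h5
    subst h6
    have h7 : ((if b then 1 else 0 : F)) = if b' then 1 else 0 := by
      have h8 := mul_left_cancel₀ (div_ne_zero hS hNB) hq
      exact add_left_cancel h8
    cases b <;> cases b' <;> simp_all
  rw [Nat.card_prod, Nat.card_fin] at hle
  simpa using hle

/-- the condition for the dual line -/
theorem dual_U {η : F} (hη : η ∉ U F) {A B C D ρ κ τ : F}
    (hρ : ρ * (A + D) ^ 2 = 1 + B + η * B ^ 2) (h1 : ρ * (C + η * A ^ 2) ∈ U F)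
    (h2 : ρ * τ ∈ U F) (h3 : ρ * κ ∉ U F) : ρ * (C + κ + η * D ^ 2 + τ) ∈ U F := by
  have h2' := two_eq' (F := F)
  have h4 : ρ * (C + κ + η * D ^ 2 + τ) =
      (ρ * (C + η * A ^ 2) + ρ * τ) + ((ρ * κ + η) + ((η * B) ^ 2 + η * B)) := by
    linear_combination η * hρ - (ρ * η * A ^ 2 + ρ * η * A * D) * h2'
  rw [h4]
  refine add_mem (add_mem h1 h2) (add_mem ?_ (wp_mem _))
  rw [add_mem_U_iff]
  exact ⟨fun h => absurd h h3, fun h => absurd h hη⟩

theorem main_even {k m n : ℕ} (hm : 1 ≤ m) {η : F} (hη : η ∉ U F) {T : Fin m → F}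
    (hT : Function.Injective T) {κ : F} (hκ : κ ≠ 0) {R : Set F}
    (hR : ∀ ρ ∈ R, ρ ≠ 0 ∧ (∀ i, ρ * T i ∈ U F) ∧ ρ * κ ∉ U F)
    (hn : k * (m * (Nat.card F * Nat.card F)) ≤ n) :
    k * (Nat.card F * (Nat.card R * (Nat.card F * Nat.card (U F)))) ≤ 2 * N (m * 2) n := by
  choose s hs using exists_sqrt (F := F)
  have h2' := two_eq' (F := F)
  have hV := lineLe_VQ hη T
  refine le_trans ?_ (Om_le (k := k) (n := n) (by omega) hκ hV
    ((Nat.mul_le_mul_left k (card_VQ T)).trans hn))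
  have hcard : Nat.card (Fin k × F × R × F × U F) =
      k * (Nat.card F * (Nat.card R * (Nat.card F * Nat.card (U F)))) := by
    rw [Nat.card_prod, Nat.card_prod, Nat.card_prod, Nat.card_prod, Nat.card_fin]
  rw [← hcard]
  have hAD : ∀ (B ρ A : F), A + (A + s ((1 + B + η * B ^ 2) / ρ)) = s ((1 + B + η * B ^ 2) / ρ) := by
    intro B ρ A
    linear_combination A * h2'
  have hρS : ∀ (B ρ A : F), ρ ≠ 0 →
      ρ * (A + (A + s ((1 + B + η * B ^ 2) / ρ))) ^ 2 = 1 + B + η * B ^ 2 := by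
    intro B ρ A hρ
    rw [hAD, hs, mul_div_cancel₀ _ hρ]
  have hcU : ∀ (A ρ c : F), ρ ≠ 0 → c ∈ U F →
      ρ * ((c / ρ + η * A ^ 2) + η * A ^ 2) ∈ U F := by
    intro A ρ c hρ hc
    have h3 : ρ * ((c / ρ + η * A ^ 2) + η * A ^ 2) = c := by
      field_simp
      linear_combination ρ * η * A ^ 2 * h2'
    rwa [h3]
  refine Nat.card_le_card_of_injective (fun w =>
    ⟨(w.1, w.2.2.2.1, w.2.1, w.2.2.2.2.1 / w.2.2.1 + η * w.2.2.2.1 ^ 2,
      w.2.2.2.1 + s ((1 + w.2.1 + η * w.2.1 ^ 2) / w.2.2.1)), ?_, ?_⟩) ?_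
  · obtain ⟨j, B, ⟨ρ, hρ⟩, A, ⟨c, hc⟩⟩ := w
    obtain ⟨h3, h4, h5⟩ := hR ρ hρ
    simp only
    refine le_antisymm (hV.1 _ _ _ _) (ge_VQ hη hT (hρS B ρ A h3) fun i => ?_)
    rw [mul_add]
    exact add_mem (hcU A ρ c h3 hc) (h4 i)
  · obtain ⟨j, B, ⟨ρ, hρ⟩, A, ⟨c, hc⟩⟩ := w
    obtain ⟨h3, h4, h5⟩ := hR ρ hρ
    simp only
    refine le_antisymm (hV.1 _ _ _ _) (ge_VQ hη hT (ρ := ρ) ?_ fun i => ?_)
    · rw [add_comm, hρS B ρ A h3]
    · exact dual_U hη (hρS B ρ A h3) (hcU A ρ c h3 hc) (h4 i) h5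
  · rintro ⟨j, B, ⟨ρ, hρ⟩, A, ⟨c, hc⟩⟩ ⟨j', B', ⟨ρ', hρ'⟩, A', ⟨c', hc'⟩⟩ hw
    obtain ⟨h3, -, -⟩ := hR ρ hρ
    obtain ⟨h3', -, -⟩ := hR ρ' hρ'
    have hw1 := congrArg (fun v : Om k (m * 2) (VQ η T) κ => v.1) hw
    simp only [Prod.mk.injEq] at hw1
    obtain ⟨e1, e2, e3, e4, e5⟩ := hw1
    subst e1 e2 e3
    have h6 : s ((1 + B + η * B ^ 2) / ρ) = s ((1 + B + η * B ^ 2) / ρ') := add_left_cancel e5
    have h7 : (1 + B + η * B ^ 2) / ρ = (1 + B + η * B ^ 2) / ρ' := by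
      rw [← hs ((1 + B + η * B ^ 2) / ρ), h6, hs]
    have h8 : ρ = ρ' := by
      have hNB := NB_ne hη B
      rw [div_eq_div_iff h3 h3'] at h7
      exact (mul_left_cancel₀ hNB h7).symm
    subst h8
    have h9 : c = c' := by
      have h10 := add_right_cancel e4
      rwa [div_left_inj' h3] at h10
    subst h9
    rfl

end KC
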