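import Mathlib
import Pool.Agent.Work.MP_63048f_co.C4

/-!
# MP_63048f_co, lower bound of order `n ^ 2 / t ^ 3`, part 5 (helper32): the cubic cylinder

For odd `t` the surface `y = x ^ 3` is added to the quadrics.
-/

set_option autoImplicit false
set_option linter.unusedSectionVars false

namespace KC

variable {F : Type} [Field F]

/-- the cubic cylinder -/
def Yc : Set (F × F × F) := {p | p.2.1 = p.1 ^ 3}

/-- the `A` for which `x ^ 3 + B x + A` has three roots -/
def Sp (B : F) : Set F := {A | Nat.card {x : F // x ^ 3 + B * x + A = 0} = 3}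

variable [CharP F 2]

theorem mem_Yc {A B C D x : F} : pt A B C D x ∈ (Yc : Set (F × F × F)) ↔
    x ^ 3 + B * x + A = 0 := by
  have h2 := two_eq' (F := F)
  show A + B * x = x ^ 3 ↔ _
  constructor
  · intro h
    linear_combination -h + (A + B * x) * h2
  · intro h
    linear_combination -h + (A + B * x) * h2

variable [Finite F]

theorem lineLe_VY {m : ℕ} {η : F} (hη : η ∉ U F) (T : Fin m → F) :
    LineLe (VQ η T ∪ Yc) (m * 2 + 3) := by
  have hV := lineLe_VQ hη T
  constructor
  · intro A B C D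
    refine (card_or_le (fun x => pt A B C D x ∈ VQ η T) (fun x => pt A B C D x ∈ Yc)).trans ?_
    refine Nat.add_le_add (hV.1 A B C D) (card_cubic_le (a := B) (b := A) fun x hx => ?_)
    exact mem_Yc.1 hx
  · intro x C D
    refine (card_or_le (fun y => (x, y, C + D * y) ∈ VQ η T)
      (fun y => (x, y, C + D * y) ∈ Yc)).trans ?_
    refine Nat.add_le_add (hV.2 x C D) ?_
    refine (card_quad_le (a := 0) (b := 1) (c := x ^ 3) (Or.inr one_ne_zero) ?_).trans
      (by norm_num)
    intro y hy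
    have hy' : y = x ^ 3 := hy
    rw [hy']
    have h2 := two_eq' (F := F)
    linear_combination x ^ 3 * h2

theorem card_VY {m : ℕ} {η : F} (T : Fin m → F) :
    Nat.card (VQ η T ∪ Yc : Set (F × F × F)) ≤ (m + 1) * (Nat.card F * Nat.card F) := by
  have h1 : Nat.card (VQ η T ∪ Yc : Set (F × F × F)) ≤
      Nat.card (VQ η T) + Nat.card (Yc : Set (F × F × F)) := Set.ncard_union_le _ _
  have h2 : Nat.card (Yc : Set (F × F × F)) ≤ Nat.card (F × F) := by
    refine Nat.card_le_card_of_injective (fun p => (p.1.1, p.1.2.2)) ?_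
    intro p p' hp
    simp only [Prod.mk.injEq] at hp
    obtain ⟨h3, h4⟩ := hp
    have h5 : p.1.2.1 = p.1.1 ^ 3 := p.2
    have h6 : p'.1.2.1 = p'.1.1 ^ 3 := p'.2
    exact Subtype.ext (Prod.ext h3 (Prod.ext (by rw [h5, h6, h3]) h4))
  rw [Nat.card_prod] at h2
  have h3 := card_VQ (η := η) T
  calc Nat.card (VQ η T ∪ Yc : Set (F × F × F)) ≤
      m * (Nat.card F * Nat.card F) + Nat.card F * Nat.card F := h1.trans (Nat.add_le_add h3 h2)
    _ = _ := by ring

theorem ge_VY {m : ℕ} {η : F} {T : Fin m → F} {A B C D : F}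
    (h1 : m * 2 ≤ Nat.card {x : F // pt A B C D x ∈ VQ η T}) (h2 : A ∈ Sp B)
    (h3 : ∀ x, x ^ 3 + B * x + A = 0 → pt A B C D x ∉ VQ η T) :
    m * 2 + 3 ≤ Nat.card {x : F // pt A B C D x ∈ VQ η T ∪ Yc} := by
  have h4 : Nat.card {x : F // pt A B C D x ∈ VQ η T ∪ Yc} =
      Nat.card {x : F // pt A B C D x ∈ VQ η T} + Nat.card {x : F // x ^ 3 + B * x + A = 0} := by
    have h5 : {x : F | pt A B C D x ∈ VQ η T ∪ Yc} =
        {x : F | pt A B C D x ∈ VQ η T} ∪ {x : F | x ^ 3 + B * x + A = 0} := by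
      ext x
      simp only [Set.mem_ofPred_eq, Set.mem_union, mem_Yc]
    have h6 : Nat.card {x : F // pt A B C D x ∈ VQ η T ∪ Yc} =
        ({x : F | pt A B C D x ∈ VQ η T ∪ Yc}).ncard := rfl
    rw [h6, h5, Set.ncard_union_eq]
    · rfl
    · rw [Set.disjoint_left]
      intro x hx hx'
      exact h3 x hx' hx
  have h5 : Nat.card {x : F // x ^ 3 + B * x + A = 0} = 3 := h2
  omega

theorem card_Lam : Nat.card F ≤
    Nat.card {l : F // l ≠ 0 ∧ l ≠ 1 ∧ l ^ 2 + l + 1 ≠ 0} + 4 := by
  have h1 : Nat.card F = Nat.card {l : F // (l ≠ 0 ∧ l ≠ 1 ∧ l ^ 2 + l + 1 ≠ 0) ∨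
      (l ^ 2 + l = 0 ∨ l ^ 2 + l + 1 = 0)} := by
    refine (Nat.card_congr (Equiv.subtypeUnivEquiv fun l => ?_)).symm
    by_cases h0 : l = 0
    · right; left
      rw [h0]
      ring
    by_cases h1 : l = 1
    · right; left
      rw [h1, one_pow]
      exact CharTwo.add_self_eq_zero 1
    by_cases h2 : l ^ 2 + l + 1 = 0
    · right; right
      exact h2
    · left
      exact ⟨h0, h1, h2⟩
  rw [h1]
  refine (card_or_le _ _).trans (Nat.add_le_add_left ((card_or_le _ _).trans ?_) _)
  have h2 : Nat.card {l : F // l ^ 2 + l = 0} ≤ 2 :=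
    card_quad_le (a := 1) (b := 1) (c := 0) (Or.inl one_ne_zero) fun x hx => by
      linear_combination hx
  have h3 : Nat.card {l : F // l ^ 2 + l + 1 = 0} ≤ 2 :=
    card_quad_le (a := 1) (b := 1) (c := 1) (Or.inl one_ne_zero) fun x hx => by
      linear_combination hx
  omega

/-- the number of split cubics -/
theorem card_Sp {B : F} (hB : B ≠ 0) : Nat.card F ≤ 6 * Nat.card (Sp B) + 4 := by
  classical
  have : Fintype F := Fintype.ofFinite F
  have h2' := two_eq' (F := F)
  choose s hs using exists_sqrt (F := F)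
  set x2 : F → F := fun l => s (B / (l ^ 2 + l + 1)) with hx2
  have hx2s : ∀ l : F, l ^ 2 + l + 1 ≠ 0 → x2 l ^ 2 * (l ^ 2 + l + 1) = B := by
    intro l hl
    rw [hx2]
    simp only
    rw [hs, div_mul_cancel₀ _ hl]
  have hx20 : ∀ l : F, l ^ 2 + l + 1 ≠ 0 → x2 l ≠ 0 := by
    intro l hl h
    have h1 := hx2s l hl
    rw [h] at h1
    apply hB
    rw [← h1]
    ring
  set a : F → F := fun l => (l * x2 l) * x2 l * ((l + 1) * x2 l) with ha
  -- the factorization
  have hfac : ∀ l x : F, l ^ 2 + l + 1 ≠ 0 →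
      x ^ 3 + B * x + a l = (x + l * x2 l) * (x + x2 l) * (x + (l + 1) * x2 l) := by
    intro l x hl
    have h1 := hx2s l hl
    rw [ha]
    simp only
    linear_combination -x * h1 - (x ^ 2 * x2 l * (l + 1) + x * x2 l ^ 2 * l) * h2'
  set Λ : Finset F := Finset.univ.filter (fun l => l ≠ 0 ∧ l ≠ 1 ∧ l ^ 2 + l + 1 ≠ 0) with hΛ
  have hcardΛ : Nat.card F ≤ Λ.card + 4 := by
    have h1 := card_Lam (F := F)
    rwa [Nat.card_eq_fintype_card (α := {l : F // l ≠ 0 ∧ l ≠ 1 ∧ l ^ 2 + l + 1 ≠ 0}),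
      Fintype.card_subtype] at h1
  have hmem : ∀ l ∈ Λ, a l ∈ Sp B := by
    intro l hl
    obtain ⟨h0, h1, hl2⟩ := (Finset.mem_filter.1 hl).2
    have hne := hx20 l hl2
    have e1 : Nat.card {x : F // x ^ 3 + B * x + a l = 0} ≤ 3 :=
      card_cubic_le fun x hx => hx
    have e2 : Nat.card (Fin 3) ≤ Nat.card {x : F // x ^ 3 + B * x + a l = 0} := by
      have r0 : (l * x2 l) ^ 3 + B * (l * x2 l) + a l = 0 := by
        rw [hfac l _ hl2, CharTwo.add_self_eq_zero, zero_mul, zero_mul]
      have r1 : (x2 l) ^ 3 + B * (x2 l) + a l = 0 := by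
        rw [hfac l _ hl2, CharTwo.add_self_eq_zero, mul_zero, zero_mul]
      have r2 : ((l + 1) * x2 l) ^ 3 + B * ((l + 1) * x2 l) + a l = 0 := by
        rw [hfac l _ hl2, CharTwo.add_self_eq_zero, mul_zero]
      have d01 : l * x2 l ≠ x2 l := by
        intro h
        apply h1
        exact mul_right_cancel₀ hne (h.trans (one_mul _).symm)
      have d02 : l * x2 l ≠ (l + 1) * x2 l := by
        intro h
        apply hne
        linear_combination -h
      have d12 : x2 l ≠ (l + 1) * x2 l := by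
        intro h
        have h3 : l * x2 l = 0 := by linear_combination -h
        rcases mul_eq_zero.1 h3 with h4 | h4
        · exact h0 h4
        · exact hne h4
      refine Nat.card_le_card_of_injective
        (![⟨l * x2 l, r0⟩, ⟨x2 l, r1⟩, ⟨(l + 1) * x2 l, r2⟩] :
          Fin 3 → {x : F // x ^ 3 + B * x + a l = 0}) ?_
      intro i j hij
      fin_cases i <;> fin_cases j <;> simp_all
    rw [Nat.card_fin] at e2
    exact le_antisymm e1 e2
  have himg : Λ.card ≤ 6 * (Λ.image a).card := by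
    refine Finset.card_le_mul_card_image _ _ fun A hA => ?_
    set r : Finset F := Finset.univ.filter (fun x => x ^ 3 + B * x + A = 0) with hr
    have hrc : r.card ≤ 3 := by
      have h1 : Nat.card {x : F // x ^ 3 + B * x + A = 0} ≤ 3 := card_cubic_le fun x hx => hx
      rwa [Nat.card_eq_fintype_card, Fintype.card_subtype] at h1
    have h2 : (Λ.filter (fun l => a l = A)).card ≤ r.offDiag.card := by
      refine Finset.card_le_card_of_injOn (fun l => (l * x2 l, x2 l)) ?_ ?_
      · intro l hl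
        obtain ⟨hl1, hl2⟩ := Finset.mem_filter.1 (Finset.mem_coe.1 hl)
        obtain ⟨h0, h1, hl3⟩ := (Finset.mem_filter.1 hl1).2
        have hne := hx20 l hl3
        rw [Finset.mem_coe, Finset.mem_offDiag]
        refine ⟨?_, ?_, ?_⟩
        · rw [hr, Finset.mem_filter, ← hl2]
          refine ⟨Finset.mem_univ _, ?_⟩
          rw [hfac l _ hl3, CharTwo.add_self_eq_zero, zero_mul, zero_mul]
        · rw [hr, Finset.mem_filter, ← hl2]
          refine ⟨Finset.mem_univ _, ?_⟩
          rw [hfac l _ hl3, CharTwo.add_self_eq_zero, mul_zero, zero_mul]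
        · intro h
          exact h1 (mul_right_cancel₀ hne (h.trans (one_mul _).symm))
      · intro l hl l' hl' h
        obtain ⟨hl1, hl2⟩ := Finset.mem_filter.1 (Finset.mem_coe.1 hl)
        obtain ⟨h0, h1, hl3⟩ := (Finset.mem_filter.1 hl1).2
        have hne := hx20 l hl3
        simp only [Prod.mk.injEq] at h
        obtain ⟨h4, h5⟩ := h
        rw [← h5] at h4
        exact mul_right_cancel₀ hne h4
    refine h2.trans ?_
    rw [Finset.offDiag_card]
    have h3 : r.card = 0 ∨ r.card = 1 ∨ r.card = 2 ∨ r.card = 3 := by omega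
    rcases h3 with h3 | h3 | h3 | h3 <;> rw [h3] <;> norm_num
  have hle : (Λ.image a).card ≤ Nat.card (Sp B) := by
    have h1 : (((Λ.image a : Finset F) : Set F)).ncard ≤ (Sp B).ncard := by
      refine Set.ncard_le_ncard ?_ (Set.toFinite _)
      intro A hA
      obtain ⟨l, hl, rfl⟩ := Finset.mem_image.1 (Finset.mem_coe.1 hA)
      exact hmem l hl
    rw [Set.ncard_coe_finset] at h1
    exact h1
  omega

end KC
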