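import Mathlib
import Pool.Agent.Work.MP_63048f_co.C5

/-!
# MP_63048f_co, lower bound of order `n ^ 2 / t ^ 3`, part 6 (helper32): the inequality for odd `t`
-/

set_option autoImplicit false
set_option linter.unusedSectionVars false

namespace KC

/-- averaging over the dilations -/
theorem exists_scale {F : Type} [Field F] [Finite F] {M : Type} [Finite M] (R : Set F)
    (hR : ∀ ρ ∈ R, ρ ≠ 0) (f : M → F) (hf : ∀ w, f w ≠ 0) :
    ∃ c : Fˣ, Nat.card R * Nat.card M ≤ (Nat.card F - 1) * Nat.card {w : M // (c : F) * f w ∈ R} := by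
  classical
  have : Fintype F := Fintype.ofFinite F
  by_contra hcon
  push Not at hcon
  have h1 : Nat.card (R × M) ≤ Nat.card (Σ c : Fˣ, {w : M // (c : F) * f w ∈ R}) := by
    refine Nat.card_le_card_of_injective
      (fun p => ⟨Units.mk0 (p.1.1 / f p.2) (div_ne_zero (hR _ p.1.2) (hf _)), ⟨p.2, ?_⟩⟩) ?_
    · simp only [Units.val_mk0]
      rw [div_mul_cancel₀ _ (hf _)]
      exact p.1.2
    · rintro ⟨⟨ρ, hρ⟩, w⟩ ⟨⟨ρ', hρ'⟩, w'⟩ h
      have e1 := congrArg (fun s : (Σ c : Fˣ, {w : M // (c : F) * f w ∈ R}) => s.2.1) h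
      simp only at e1
      subst e1
      have e2 := congrArg (fun s : (Σ c : Fˣ, {w : M // (c : F) * f w ∈ R}) => (s.1 : F)) h
      simp only [Units.val_mk0] at e2
      rw [div_left_inj' (hf _)] at e2
      subst e2
      rfl
  rw [Nat.card_prod, Nat.card_sigma] at h1
  have h2 : ∑ c : Fˣ, (Nat.card F - 1) * Nat.card {w : M // (c : F) * f w ∈ R} <
      ∑ c : Fˣ, Nat.card R * Nat.card M :=
    Finset.sum_lt_sum_of_nonempty Finset.univ_nonempty fun c _ => hcon c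
  rw [← Finset.mul_sum, Finset.sum_const, Finset.card_univ, smul_eq_mul] at h2
  have h3 : Fintype.card Fˣ = Nat.card F - 1 := by
    rw [← Nat.card_eq_fintype_card, Nat.card_units]
  rw [h3] at h2
  exact absurd h1 (not_le.2 (lt_of_mul_lt_mul_left h2 (Nat.zero_le _)))

variable {F : Type} [Field F] [CharP F 2]

/-- the pairs of split cubics `x ^ 3 + B x + A`, `x ^ 3 + B x + D` -/
def Mt (F : Type) [Field F] : Type :=
  {w : F × F × F // w.2.1 ≠ 0 ∧ w.1 ∈ Sp w.2.1 ∧ w.2.2 ∈ Sp w.2.1 ∧ w.1 ≠ w.2.2}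

variable [Finite F]

instance : Finite (Mt F) := Subtype.finite

theorem card_Mt : (Nat.card F - 1) * ((Nat.card F + 1) / 6 * ((Nat.card F + 1) / 6) -
    (Nat.card F + 1) / 6) ≤ Nat.card (Mt F) := by
  classical
  set σ := (Nat.card F + 1) / 6 with hσ
  have h1 : ∀ B : Fˣ, Nonempty (Fin σ ↪ Sp (B : F)) := by
    intro B
    have : Fintype (Sp (B : F)) := Fintype.ofFinite _
    refine Function.Embedding.nonempty_of_card_le ?_
    rw [Fintype.card_fin, ← Nat.card_eq_fintype_card]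
    have h2 := card_Sp B.ne_zero
    omega
  have e : ∀ B : Fˣ, Fin σ ↪ Sp (B : F) := fun B => (h1 B).some
  have h2 : Nat.card {p : Fin σ × Fin σ // p.1 ≠ p.2} = σ * σ - σ := by
    rw [Nat.card_eq_fintype_card, Fintype.card_subtype]
    have h3 : (Finset.univ.filter (fun p : Fin σ × Fin σ => p.1 ≠ p.2)) =
        (Finset.univ : Finset (Fin σ)).offDiag := by
      ext p
      simp [Finset.mem_offDiag]
    rw [h3, Finset.offDiag_card, Finset.card_univ, Fintype.card_fin]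
  have h3 : Nat.card (Fˣ × {p : Fin σ × Fin σ // p.1 ≠ p.2}) ≤ Nat.card (Mt F) := by
    refine Nat.card_le_card_of_injective (fun w =>
      ⟨((e w.1 w.2.1.1 : F), (w.1 : F), (e w.1 w.2.1.2 : F)), w.1.ne_zero,
        (e w.1 w.2.1.1).2, (e w.1 w.2.1.2).2, ?_⟩) ?_
    · intro h
      exact w.2.2 ((e w.1).injective (Subtype.ext h))
    · rintro ⟨B, ⟨⟨i, j⟩, hij⟩⟩ ⟨B', ⟨⟨i', j'⟩, hij'⟩⟩ h
      have h4 := congrArg (fun v : Mt F => v.1) h
      simp only [Prod.mk.injEq] at h4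
      obtain ⟨h5, h6, h7⟩ := h4
      have h8 : B = B' := Units.ext h6
      subst h8
      have h9 : i = i' := (e B).injective (Subtype.ext h5)
      have h10 : j = j' := (e B).injective (Subtype.ext h7)
      subst h9 h10
      rfl
  rwa [Nat.card_prod, Nat.card_units, h2] at h3

theorem bad_le {m : ℕ} {η : F} (T : Fin m → F) (A B D : F) :
    Nat.card {C : F // ∃ x, x ^ 3 + B * x + A = 0 ∧ pt A B C D x ∈ VQ η T} ≤ 3 * m := by
  have h1 : Nat.card {C : F // ∃ x, x ^ 3 + B * x + A = 0 ∧ pt A B C D x ∈ VQ η T} ≤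
      Nat.card ({x : F // x ^ 3 + B * x + A = 0} × Fin m) := by
    refine Nat.card_le_card_of_injective
      (fun C => (⟨C.2.choose, C.2.choose_spec.1⟩, C.2.choose_spec.2.choose)) ?_
    intro C C' h
    simp only [Prod.mk.injEq, Subtype.mk.injEq] at h
    obtain ⟨h2, h3⟩ := h
    have e1 := C.2.choose_spec.2.choose_spec
    have e2 := C'.2.choose_spec.2.choose_spec
    rw [← h3, ← h2] at e2
    have e3 := e1.trans e2.symm
    exact Subtype.ext (add_right_cancel e3)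
  refine h1.trans ?_
  rw [Nat.card_prod, Nat.card_fin]
  exact Nat.mul_le_mul_right _ (card_cubic_le fun x hx => hx)

/-- the number of good `C` -/
theorem card_C {m : ℕ} {η : F} (T : Fin m → F) (κ A B D : F) {ρ : F} (hρ : ρ ≠ 0) :
    Nat.card (U F) - 6 * m ≤ Nat.card {C : F // ρ * (C + η * A ^ 2) ∈ U F ∧
      (∀ x, x ^ 3 + B * x + A = 0 → pt A B C D x ∉ VQ η T) ∧
      (∀ x, x ^ 3 + B * x + D = 0 → pt D B (C + κ) A x ∉ VQ η T)} := by
  have h2' := two_eq' (F := F)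
  have h1 : Nat.card (U F) ≤ Nat.card {C : F // ρ * (C + η * A ^ 2) ∈ U F} := by
    refine Nat.card_le_card_of_injective (fun c => ⟨c.1 / ρ + η * A ^ 2, ?_⟩) ?_
    · have h3 : ρ * ((c.1 / ρ + η * A ^ 2) + η * A ^ 2) = c.1 := by
        field_simp
        linear_combination ρ * η * A ^ 2 * h2'
      rw [h3]
      exact c.2
    · intro c c' h
      simp only [Subtype.mk.injEq] at h
      have h3 := add_right_cancel h
      rw [div_left_inj' hρ] at h3
      exact Subtype.ext h3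
  have h2 : Nat.card {C : F // ρ * (C + η * A ^ 2) ∈ U F} ≤
      Nat.card {C : F // (ρ * (C + η * A ^ 2) ∈ U F ∧
      (∀ x, x ^ 3 + B * x + A = 0 → pt A B C D x ∉ VQ η T) ∧
      (∀ x, x ^ 3 + B * x + D = 0 → pt D B (C + κ) A x ∉ VQ η T)) ∨
      ((∃ x, x ^ 3 + B * x + A = 0 ∧ pt A B C D x ∈ VQ η T) ∨
      (∃ x, x ^ 3 + B * x + D = 0 ∧ pt D B (C + κ) A x ∈ VQ η T))} := by
    refine Nat.card_le_card_of_injective (fun C => ⟨C.1, ?_⟩) ?_
    · by_cases h3 : ∃ x, x ^ 3 + B * x + A = 0 ∧ pt A B C.1 D x ∈ VQ η T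
      · exact Or.inr (Or.inl h3)
      by_cases h4 : ∃ x, x ^ 3 + B * x + D = 0 ∧ pt D B (C.1 + κ) A x ∈ VQ η T
      · exact Or.inr (Or.inr h4)
      left
      refine ⟨C.2, fun x hx hx' => h3 ⟨x, hx, hx'⟩, fun x hx hx' => h4 ⟨x, hx, hx'⟩⟩
    · intro C C' h
      simp only [Subtype.mk.injEq] at h
      exact Subtype.ext h
  have h3 := card_or_le (fun C : F => ρ * (C + η * A ^ 2) ∈ U F ∧
      (∀ x, x ^ 3 + B * x + A = 0 → pt A B C D x ∉ VQ η T) ∧
      (∀ x, x ^ 3 + B * x + D = 0 → pt D B (C + κ) A x ∉ VQ η T))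
      (fun C : F => (∃ x, x ^ 3 + B * x + A = 0 ∧ pt A B C D x ∈ VQ η T) ∨
      (∃ x, x ^ 3 + B * x + D = 0 ∧ pt D B (C + κ) A x ∈ VQ η T))
  have h4 := card_or_le (fun C : F => ∃ x, x ^ 3 + B * x + A = 0 ∧ pt A B C D x ∈ VQ η T)
      (fun C : F => ∃ x, x ^ 3 + B * x + D = 0 ∧ pt D B (C + κ) A x ∈ VQ η T)
  have h5 := bad_le (η := η) T A B D
  have h6 : Nat.card {C : F // ∃ x, x ^ 3 + B * x + D = 0 ∧ pt D B (C + κ) A x ∈ VQ η T} ≤
      3 * m := by
    refine le_trans ?_ (bad_le (η := η) T D B A)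
    refine Nat.card_le_card_of_injective (fun C => ⟨C.1 + κ, C.2⟩) ?_
    intro C C' h
    simp only [Subtype.mk.injEq] at h
    exact Subtype.ext (add_right_cancel h)
  omega

theorem main_odd {k m n : ℕ} {η : F} (hη : η ∉ U F) {T : Fin m → F}
    (hT : Function.Injective T) {κ : F} (hκ : κ ≠ 0) {R : Set F}
    (hR : ∀ ρ ∈ R, ρ ≠ 0 ∧ (∀ i, ρ * T i ∈ U F) ∧ ρ * κ ∉ U F)
    (hn : k * ((m + 1) * (Nat.card F * Nat.card F)) ≤ n) :
    k * (Nat.card R * (((Nat.card F + 1) / 6 * ((Nat.card F + 1) / 6) - (Nat.card F + 1) / 6) *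
      (Nat.card (U F) - 6 * m))) ≤ 2 * N (m * 2 + 3) n := by
  classical
  have h2' := two_eq' (F := F)
  set f : Mt F → F := fun w =>
    (1 + w.1.2.1 + η * w.1.2.1 ^ 2) / (w.1.1 + w.1.2.2) ^ 2 with hf
  have hAD : ∀ w : Mt F, w.1.1 + w.1.2.2 ≠ 0 := fun w h => w.2.2.2.2 (CharTwo.add_eq_zero.1 h)
  have hf0 : ∀ w, f w ≠ 0 := fun w => div_ne_zero (NB_ne hη _) (pow_ne_zero _ (hAD w))
  have hfρ : ∀ w, f w * (w.1.1 + w.1.2.2) ^ 2 = 1 + w.1.2.1 + η * w.1.2.1 ^ 2 := fun w =>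
    div_mul_cancel₀ _ (pow_ne_zero _ (hAD w))
  obtain ⟨c, hc⟩ := exists_scale R (fun ρ hρ => (hR ρ hρ).1) f hf0
  set T' : Fin m → F := fun i => c * T i with hT'
  have hT'inj : Function.Injective T' := fun i j hij => hT (mul_left_cancel₀ c.ne_zero hij)
  have hκ' : (c : F) * κ ≠ 0 := mul_ne_zero c.ne_zero hκ
  have hV := lineLe_VY hη T'
  have h1 := Om_le (k := k) (n := n) (by omega) hκ' hV
    ((Nat.mul_le_mul_left k (card_VY T')).trans hn)
  set u := Nat.card (U F) - 6 * m with hu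
  have he : ∀ w : Mt F, Nonempty (Fin u ↪ {C : F // f w * (C + η * w.1.1 ^ 2) ∈ U F ∧
      (∀ x, x ^ 3 + w.1.2.1 * x + w.1.1 = 0 → pt w.1.1 w.1.2.1 C w.1.2.2 x ∉ VQ η T') ∧
      (∀ x, x ^ 3 + w.1.2.1 * x + w.1.2.2 = 0 →
        pt w.1.2.2 w.1.2.1 (C + c * κ) w.1.1 x ∉ VQ η T')}) := by
    intro w
    have : Fintype {C : F // f w * (C + η * w.1.1 ^ 2) ∈ U F ∧
      (∀ x, x ^ 3 + w.1.2.1 * x + w.1.1 = 0 → pt w.1.1 w.1.2.1 C w.1.2.2 x ∉ VQ η T') ∧
      (∀ x, x ^ 3 + w.1.2.1 * x + w.1.2.2 = 0 →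
        pt w.1.2.2 w.1.2.1 (C + c * κ) w.1.1 x ∉ VQ η T')} := Fintype.ofFinite _
    refine Function.Embedding.nonempty_of_card_le ?_
    rw [Fintype.card_fin, ← Nat.card_eq_fintype_card]
    exact card_C T' (c * κ) w.1.1 w.1.2.1 w.1.2.2 (hf0 w)
  have e : ∀ w : Mt F, (Fin u ↪ {C : F // f w * (C + η * w.1.1 ^ 2) ∈ U F ∧
      (∀ x, x ^ 3 + w.1.2.1 * x + w.1.1 = 0 → pt w.1.1 w.1.2.1 C w.1.2.2 x ∉ VQ η T') ∧
      (∀ x, x ^ 3 + w.1.2.1 * x + w.1.2.2 = 0 →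
        pt w.1.2.2 w.1.2.1 (C + c * κ) w.1.1 x ∉ VQ η T')}) := fun w => (he w).some
  have h2 : Nat.card (Fin k × {w : Mt F // (c : F) * f w ∈ R} × Fin u) ≤
      Nat.card (Om k (m * 2 + 3) (VQ η T' ∪ Yc) (c * κ)) := by
    refine Nat.card_le_card_of_injective (fun v =>
      ⟨(v.1, v.2.1.1.1.1, v.2.1.1.1.2.1, (e v.2.1.1 v.2.2 : F), v.2.1.1.1.2.2), ?_, ?_⟩) ?_
    · obtain ⟨j, ⟨w, hw⟩, i⟩ := v
      obtain ⟨hC1, hC2, hC3⟩ := (e w i).2
      obtain ⟨h3, h4, h5⟩ := hR _ hw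
      simp only
      refine le_antisymm (hV.1 _ _ _ _) (ge_VY (ge_VQ hη hT'inj (hfρ w) fun i' => ?_)
        w.2.2.1 hC2)
      rw [mul_add]
      refine add_mem hC1 ?_
      have h6 := h4 i'
      rwa [mul_comm (c : F), mul_assoc] at h6
    · obtain ⟨j, ⟨w, hw⟩, i⟩ := v
      obtain ⟨hC1, hC2, hC3⟩ := (e w i).2
      obtain ⟨h3, h4, h5⟩ := hR _ hw
      simp only
      refine le_antisymm (hV.1 _ _ _ _) (ge_VY (ge_VQ hη hT'inj (ρ := f w) ?_ fun i' => ?_)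
        w.2.2.2.1 hC3)
      · rw [add_comm]
        exact hfρ w
      · refine dual_U hη (hfρ w) hC1 ?_ ?_
        · have h6 := h4 i'
          rwa [mul_comm (c : F), mul_assoc] at h6
        · rwa [mul_comm (c : F), mul_assoc] at h5
    · rintro ⟨j, ⟨w, hw⟩, i⟩ ⟨j', ⟨w', hw'⟩, i'⟩ h
      have h3 := congrArg (fun v : Om k (m * 2 + 3) (VQ η T' ∪ Yc) (c * κ) => v.1) h
      simp only [Prod.mk.injEq] at h3
      obtain ⟨e1, e2, e3, e4, e5⟩ := h3
      have h4 : w = w' := Subtype.ext (Prod.ext e2 (Prod.ext e3 e5))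
      subst e1 h4
      have h5 : i = i' := (e w).injective (Subtype.ext e4)
      subst h5
      rfl
  rw [Nat.card_prod, Nat.card_prod, Nat.card_fin, Nat.card_fin] at h2
  have h3 := card_Mt (F := F)
  set σ := (Nat.card F + 1) / 6 with hσ
  have hq : 0 < Nat.card F - 1 := by
    have : 1 < Nat.card F := Finite.one_lt_card
    omega
  have h4 : k * (Nat.card {w : Mt F // (c : F) * f w ∈ R} * u) ≤ 2 * N (m * 2 + 3) n :=
    h2.trans h1
  refine Nat.le_of_mul_le_mul_left ?_ hq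
  calc (Nat.card F - 1) * (k * (Nat.card R * ((σ * σ - σ) * u)))
      = k * (Nat.card R * ((Nat.card F - 1) * (σ * σ - σ)) * u) := by ring
    _ ≤ k * (Nat.card R * Nat.card (Mt F) * u) := by gcongr
    _ ≤ k * ((Nat.card F - 1) * Nat.card {w : Mt F // (c : F) * f w ∈ R} * u) := by gcongr
    _ = (Nat.card F - 1) * (k * (Nat.card {w : Mt F // (c : F) * f w ∈ R} * u)) := by ring
    _ ≤ (Nat.card F - 1) * (2 * N (m * 2 + 3) n) := Nat.mul_le_mul_left _ h4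

end KC
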