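import Mathlib
import Pool.Agent.Work.MP_63048f_co.C6

/-!
# MP_63048f_co, lower bound of order `n ^ 2 / t ^ 3`, part 7 (helper32): limits
-/

set_option autoImplicit false
set_option linter.unusedSectionVars false

namespace KC

open SimpleGraph Filter Topology

/-- the exponent for `n` -/
theorem exists_exp {M : ℕ} (hM : 1 ≤ M) (e0 n : ℕ) (hn : M * 4 ^ e0 ≤ n) :
    ∃ e, e0 ≤ e ∧ M * 4 ^ e ≤ n ∧ n < M * 4 ^ (e + 1) := by
  classical
  have hex : ∃ e, n < M * 4 ^ (e + 1) := by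
    refine ⟨n, ?_⟩
    have h3 : n + 1 < 4 ^ (n + 1) := Nat.lt_pow_self (by norm_num)
    calc n < 1 * 4 ^ (n + 1) := by omega
      _ ≤ M * 4 ^ (n + 1) := Nat.mul_le_mul_right _ hM
  have h1 : n < M * 4 ^ (Nat.find hex + 1) := Nat.find_spec hex
  have h2 : e0 ≤ Nat.find hex := by
    by_contra hcon
    rw [not_le] at hcon
    have h3 : M * 4 ^ (Nat.find hex + 1) ≤ M * 4 ^ e0 :=
      Nat.mul_le_mul_left _ (Nat.pow_le_pow_right (by norm_num) hcon)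
    omega
  refine ⟨Nat.find hex, h2, ?_, h1⟩
  rcases Nat.lt_or_ge e0 (Nat.find hex) with h3 | h3
  · have h4 := Nat.find_min hex (m := Nat.find hex - 1) (by omega)
    rw [not_lt] at h4
    have h5 : Nat.find hex - 1 + 1 = Nat.find hex := by omega
    rwa [h5] at h4
  · have h4 : Nat.find hex = e0 := by omega
    rw [h4]
    exact hn

/-- passage to the limit -/
theorem limits (f : ℕ → ℕ) {M : ℕ} (hM : 1 ≤ M) {κ : ℝ} (hκ : 0 < κ) (g : ℕ → ℝ)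
    (hg : Tendsto g atTop (𝓝 1))
    (h : ∀ᶠ e : ℕ in atTop, ∀ k n : ℕ, k * (M * 4 ^ e) ≤ n →
      (k : ℝ) * ((M * 4 ^ e : ℕ) : ℝ) ^ 2 * κ * g e ≤ f n) :
    (∀ c : ℝ, c < 3 / 16 * κ → ∀ᶠ n : ℕ in atTop, c < (f n : ℝ) / (n : ℝ) ^ 2) ∧
      (∀ c : ℝ, c < κ → ∃ᶠ n : ℕ in atTop, c < (f n : ℝ) / (n : ℝ) ^ 2) := by
  constructor
  · intro c hc
    have h1 : Tendsto (fun e : ℕ => 3 / 16 * κ * g e) atTop (𝓝 (3 / 16 * κ * 1)) :=
      hg.const_mul _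
    rw [mul_one] at h1
    obtain ⟨e0, he0⟩ := Filter.eventually_atTop.1 ((h1.eventually_const_lt hc).and
      (h.and (hg.eventually_const_lt zero_lt_one)))
    filter_upwards [eventually_ge_atTop (M * 4 ^ e0)] with n hn
    obtain ⟨e, hee, h2, h3⟩ := exists_exp hM e0 n hn
    obtain ⟨h4, h5, h6⟩ := he0 e hee
    set a : ℕ := M * 4 ^ e with ha
    have hapos : 0 < a := Nat.mul_pos (by omega) (by positivity)
    have h3' : n < a * 4 := by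
      refine lt_of_lt_of_le h3 (le_of_eq ?_)
      rw [ha, pow_succ, mul_assoc]
    set k : ℕ := n / a with hk
    have hk1 : 1 ≤ k := (Nat.one_le_div_iff hapos).2 h2
    have hk2 : k < 4 := by
      rw [hk, Nat.div_lt_iff_lt_mul hapos, mul_comm]
      exact h3'
    have hka : k * a ≤ n := Nat.div_mul_le_self n a
    have hka2 : n < (k + 1) * a := by
      rw [hk, mul_comm]
      exact Nat.lt_mul_div_succ n hapos
    have h7 := h5 k n hka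
    have haR : (0 : ℝ) < (a : ℝ) := by exact_mod_cast hapos
    have hnR : (n : ℝ) < ((k : ℝ) + 1) * a := by exact_mod_cast hka2
    have hn0 : (0 : ℝ) < n := by
      have h8 : 0 < n := lt_of_lt_of_le hapos h2
      exact_mod_cast h8
    rw [lt_div_iff₀ (by positivity)]
    have h8 : (n : ℝ) ^ 2 ≤ (((k : ℝ) + 1) * a) ^ 2 := pow_le_pow_left₀ hn0.le hnR.le 2
    have h9 : 3 / 16 * ((k : ℝ) + 1) ^ 2 ≤ k := by
      have h10 : k = 1 ∨ k = 2 ∨ k = 3 := by omega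
      rcases h10 with h10 | h10 | h10 <;> rw [h10] <;> norm_num
    calc c * (n : ℝ) ^ 2 < 3 / 16 * κ * g e * (n : ℝ) ^ 2 :=
          mul_lt_mul_of_pos_right h4 (by positivity)
      _ ≤ 3 / 16 * κ * g e * (((k : ℝ) + 1) * a) ^ 2 := by gcongr
      _ = (3 / 16 * ((k : ℝ) + 1) ^ 2) * ((a : ℝ) ^ 2 * κ * g e) := by ring
      _ ≤ (k : ℝ) * ((a : ℝ) ^ 2 * κ * g e) := mul_le_mul_of_nonneg_right h9 (by positivity)
      _ = (k : ℝ) * (a : ℝ) ^ 2 * κ * g e := by ring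
      _ ≤ f n := h7
  · intro c hc
    have h1 : Tendsto (fun e : ℕ => κ * g e) atTop (𝓝 (κ * 1)) := hg.const_mul _
    rw [mul_one] at h1
    rw [Filter.frequently_atTop]
    intro n0
    have h2 : Tendsto (fun e : ℕ => M * 4 ^ e) atTop atTop := by
      refine tendsto_atTop_mono (fun e => ?_) tendsto_id
      have h3 : e < 4 ^ e := Nat.lt_pow_self (by norm_num)
      calc id e = e := rfl
        _ ≤ 1 * 4 ^ e := by omega
        _ ≤ M * 4 ^ e := Nat.mul_le_mul_right _ hM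
    obtain ⟨e, h3, h4, h6⟩ := ((h1.eventually_const_lt hc).and
      ((h2.eventually_ge_atTop n0).and h)).exists
    refine ⟨M * 4 ^ e, h4, ?_⟩
    have h5 := h6 1 (M * 4 ^ e) (by omega)
    have hpos : (0 : ℝ) < ((M * 4 ^ e : ℕ) : ℝ) := by
      have : 0 < M * 4 ^ e := Nat.mul_pos (by omega) (by positivity)
      exact_mod_cast this
    rw [lt_div_iff₀ (by positivity)]
    calc c * ((M * 4 ^ e : ℕ) : ℝ) ^ 2 < κ * g e * ((M * 4 ^ e : ℕ) : ℝ) ^ 2 :=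
          mul_lt_mul_of_pos_right h3 (by positivity)
      _ = ((1 : ℕ) : ℝ) * ((M * 4 ^ e : ℕ) : ℝ) ^ 2 * κ * g e := by
          rw [Nat.cast_one]
          ring
      _ ≤ _ := h5

/-- the data in the field with `2 ^ e` elements -/
theorem data_gf {ν m e : ℕ} (hm : m ≤ 2 ^ ν) (he : ν + 1 ≤ e) :
    ∃ (T : Fin m → GaloisField 2 e) (κ : GaloisField 2 e) (R : Set (GaloisField 2 e)),
      Function.Injective T ∧ κ ≠ 0 ∧
      (∀ ρ ∈ R, ρ ≠ 0 ∧ (∀ i, ρ * T i ∈ U (GaloisField 2 e)) ∧ ρ * κ ∉ U (GaloisField 2 e)) ∧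
      2 ^ e ≤ 2 ^ (ν + 1) * Nat.card R := by
  have he0 : e ≠ 0 := by omega
  have hcard : Nat.card (GaloisField 2 e) = 2 ^ e := GaloisField.card 2 e he0
  have hfr : Module.finrank (ZMod 2) (GaloisField 2 e) = e := GaloisField.finrank 2 he0
  set B := Module.finBasisOfFinrankEq (ZMod 2) (GaloisField 2 e) hfr with hB
  have hb : LinearIndependent (ZMod 2) (fun j : Fin ν => B (Fin.castLE (by omega) j)) :=
    B.linearIndependent.comp _ (Fin.castLE_injective _)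
  obtain ⟨T, κ, R, h1, h2, h3, h4⟩ := exists_data _ hb hm (by
    rw [hcard]
    exact Nat.pow_le_pow_right (by norm_num) he)
  rw [hcard] at h4
  exact ⟨T, κ, R, h1, h2, h3, h4⟩

theorem ineq_even {ν m k e n : ℕ} (hm1 : 1 ≤ m) (hm : m ≤ 2 ^ ν) (he : ν + 1 ≤ e)
    (hn : k * (m * 4 ^ e) ≤ n) : k * 16 ^ e ≤ 2 ^ (ν + 3) * N (m * 2) n := by
  have he0 : e ≠ 0 := by omega
  have hcard : Nat.card (GaloisField 2 e) = 2 ^ e := GaloisField.card 2 e he0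
  obtain ⟨T, κ, R, h1, h2, h3, h4⟩ := data_gf hm he
  obtain ⟨η, hη⟩ := exists_not_mem_U (F := GaloisField 2 e)
  have h44 : (4 : ℕ) ^ e = 2 ^ e * 2 ^ e := by
    rw [← mul_pow]
    norm_num
  have h5 := main_even (k := k) (n := n) hm1 hη h1 h2 h3 (by rwa [hcard, ← h44])
  have h6 := card_U (F := GaloisField 2 e)
  rw [hcard] at h5 h6
  have h16 : (16 : ℕ) ^ e = 2 ^ e * (2 ^ e * (2 ^ e * 2 ^ e)) := by
    rw [← mul_pow, ← mul_pow, ← mul_pow]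
    norm_num
  calc k * 16 ^ e = k * (2 ^ e * (2 ^ e * (2 ^ e * 2 ^ e))) := by rw [h16]
    _ ≤ k * (2 ^ e * ((2 ^ (ν + 1) * Nat.card R) * (2 ^ e * 2 ^ e))) := by gcongr
    _ = k * (2 ^ e * ((2 ^ (ν + 1) * Nat.card R) * (2 ^ e *
        (Nat.card (U (GaloisField 2 e)) * 2)))) := by rw [h6]
    _ = 2 ^ (ν + 2) * (k * (2 ^ e * (Nat.card R * (2 ^ e *
        Nat.card (U (GaloisField 2 e)))))) := by ring
    _ ≤ 2 ^ (ν + 2) * (2 * N (m * 2) n) := Nat.mul_le_mul_left _ h5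
    _ = 2 ^ (ν + 3) * N (m * 2) n := by ring

theorem even_limits {m ν : ℕ} (hm1 : 1 ≤ m) (hm : m ≤ 2 ^ ν) :
    (∀ c : ℝ, c < 3 / (128 * (m : ℝ) ^ 2 * 2 ^ ν) → ∀ᶠ n : ℕ in atTop,
      c < (N (2 * m) n : ℝ) / (n : ℝ) ^ 2) ∧
    (∀ c : ℝ, c < 1 / (8 * (m : ℝ) ^ 2 * 2 ^ ν) → ∃ᶠ n : ℕ in atTop,
      c < (N (2 * m) n : ℝ) / (n : ℝ) ^ 2) := by
  have hm0 : (0 : ℝ) < m := by exact_mod_cast hm1
  have h := limits (fun n => N (2 * m) n) hm1 (κ := 1 / (8 * (m : ℝ) ^ 2 * 2 ^ ν))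
    (by positivity) (fun _ => 1) tendsto_const_nhds ?_
  · refine ⟨fun c hc => h.1 c (lt_of_lt_of_eq hc ?_), h.2⟩
    field_simp
    norm_num
  · filter_upwards [eventually_ge_atTop (ν + 1)] with e he k n hn
    have h1 := ineq_even hm1 hm he hn
    have h2 : (k : ℝ) * 16 ^ e ≤ 2 ^ (ν + 3) * N (m * 2) n := by exact_mod_cast h1
    have h3 : (k : ℝ) * ((m * 4 ^ e : ℕ) : ℝ) ^ 2 * (1 / (8 * (m : ℝ) ^ 2 * 2 ^ ν)) * 1 =
        (k : ℝ) * 16 ^ e / 2 ^ (ν + 3) := by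
      push_cast
      have h4 : (16 : ℝ) ^ e = (4 ^ e) ^ 2 := by
        rw [← pow_mul, mul_comm e 2, pow_mul]
        norm_num
      rw [h4, pow_add]
      field_simp
      norm_num
    rw [h3, div_le_iff₀ (by positivity), mul_comm (N (2 * m) n : ℝ), mul_comm 2 m]
    exact h2

/-- the correction factor for odd `t` -/
noncomputable def gf (m e : ℕ) : ℝ :=
  (1 - 4 / (2 : ℝ) ^ e) * (1 - 10 / (2 : ℝ) ^ e) * (1 - 12 * m / (2 : ℝ) ^ e)

theorem tendsto_gf (m : ℕ) : Tendsto (gf m) atTop (𝓝 1) := by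
  have h2 : Tendsto (fun e : ℕ => (2 : ℝ) ^ e) atTop atTop :=
    tendsto_pow_atTop_atTop_of_one_lt (by norm_num)
  have h3 := (h2.const_div_atTop (4 : ℝ)).const_sub 1
  have h4 := (h2.const_div_atTop (10 : ℝ)).const_sub 1
  have h5 := (h2.const_div_atTop (12 * m : ℝ)).const_sub 1
  have h6 := (h3.mul h4).mul h5
  simp only [sub_zero, mul_one] at h6
  exact h6

theorem ineq_odd {ν m k e n : ℕ} (hm : m ≤ 2 ^ ν) (he : ν + 1 ≤ e) (he4 : 4 ≤ e)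
    (hme : 12 * m ≤ 2 ^ e) (hn : k * ((m + 1) * 4 ^ e) ≤ n) :
    (k : ℝ) * (2 ^ e * ((2 ^ e - 4) * (2 ^ e - 10)) * (2 ^ e - 12 * m)) ≤
      288 * 2 ^ ν * N (2 * m + 3) n := by
  have he0 : e ≠ 0 := by omega
  have hcard : Nat.card (GaloisField 2 e) = 2 ^ e := GaloisField.card 2 e he0
  obtain ⟨T, κ, R, h1, h2, h3, h4⟩ := data_gf hm he
  obtain ⟨η, hη⟩ := exists_not_mem_U (F := GaloisField 2 e)
  have h44 : (4 : ℕ) ^ e = 2 ^ e * 2 ^ e := by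
    rw [← mul_pow]
    norm_num
  have h5 := main_odd (k := k) (n := n) hη h1 h2 h3 (by rwa [hcard, ← h44])
  have h6 := card_U (F := GaloisField 2 e)
  rw [hcard] at h5 h6
  set u := Nat.card (U (GaloisField 2 e)) with hu
  set σ := (2 ^ e + 1) / 6 with hσ
  have hq16 : 16 ≤ 2 ^ e := by
    calc 16 = 2 ^ 4 := by norm_num
      _ ≤ 2 ^ e := Nat.pow_le_pow_right (by norm_num) he4
  have hσ6 : 2 ^ e ≤ 6 * σ + 4 := by omega
  have hσ1 : σ ≤ σ * σ := Nat.le_mul_self σ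
  have hum : 6 * m ≤ u := by omega
  have h7 : (k : ℝ) * (Nat.card R * (((σ : ℝ) * σ - σ) * ((u : ℝ) - 6 * m))) ≤
      2 * N (m * 2 + 3) n := by
    have h8 : ((k * (Nat.card R * ((σ * σ - σ) * (u - 6 * m))) : ℕ) : ℝ) ≤
        ((2 * N (m * 2 + 3) n : ℕ) : ℝ) := by exact_mod_cast h5
    push_cast [Nat.cast_sub hσ1, Nat.cast_sub hum] at h8
    exact h8
  have h4R : (2 : ℝ) ^ e ≤ 2 ^ (ν + 1) * Nat.card R := by exact_mod_cast h4
  have h6R : (u : ℝ) * 2 = 2 ^ e := by exact_mod_cast h6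
  have hσR : (2 : ℝ) ^ e ≤ 6 * σ + 4 := by exact_mod_cast hσ6
  have hqR : (16 : ℝ) ≤ 2 ^ e := by exact_mod_cast hq16
  have hmR : 12 * (m : ℝ) ≤ 2 ^ e := by exact_mod_cast hme
  set q : ℝ := (2 : ℝ) ^ e with hqdef
  have hσ2 : (q - 4) * (q - 10) ≤ 36 * ((σ : ℝ) * σ - σ) := by
    have h9 : 0 ≤ q - 10 := by linarith
    have h10 : q - 4 ≤ 6 * σ := by linarith
    have h11 : q - 10 ≤ 6 * σ - 6 := by linarith
    calc (q - 4) * (q - 10) ≤ (6 * σ) * (q - 10) := mul_le_mul_of_nonneg_right h10 h9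
      _ ≤ (6 * σ) * (6 * σ - 6) := mul_le_mul_of_nonneg_left h11 (by positivity)
      _ = _ := by ring
  have hu2 : q - 12 * m = 2 * ((u : ℝ) - 6 * m) := by linarith
  have hu3 : 0 ≤ (u : ℝ) - 6 * m := by linarith
  have hq4 : 0 ≤ (q - 4) * (q - 10) := mul_nonneg (by linarith) (by linarith)
  rw [hu2, mul_comm 2 m]
  calc (k : ℝ) * (q * ((q - 4) * (q - 10)) * (2 * ((u : ℝ) - 6 * m)))
      ≤ k * ((2 ^ (ν + 1) * Nat.card R) * (36 * ((σ : ℝ) * σ - σ)) *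
        (2 * ((u : ℝ) - 6 * m))) := by
        gcongr
    _ = 144 * 2 ^ ν * (k * (Nat.card R * (((σ : ℝ) * σ - σ) * ((u : ℝ) - 6 * m)))) := by ring
    _ ≤ 144 * 2 ^ ν * (2 * N (m * 2 + 3) n) := by gcongr
    _ = _ := by ring

theorem odd_limits {m ν : ℕ} (hm : m ≤ 2 ^ ν) :
    (∀ c : ℝ, c < 1 / (1536 * ((m : ℝ) + 1) ^ 2 * 2 ^ ν) → ∀ᶠ n : ℕ in atTop,
      c < (N (2 * m + 3) n : ℝ) / (n : ℝ) ^ 2) ∧
    (∀ c : ℝ, c < 1 / (288 * ((m : ℝ) + 1) ^ 2 * 2 ^ ν) → ∃ᶠ n : ℕ in atTop,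
      c < (N (2 * m + 3) n : ℝ) / (n : ℝ) ^ 2) := by
  have hm0 : (0 : ℝ) < (m : ℝ) + 1 := by positivity
  have h := limits (fun n => N (2 * m + 3) n) (M := m + 1) (by omega)
    (κ := 1 / (288 * ((m : ℝ) + 1) ^ 2 * 2 ^ ν))
    (by positivity) (gf m) (tendsto_gf m) ?_
  · refine ⟨fun c hc => h.1 c (lt_of_lt_of_eq hc ?_), h.2⟩
    field_simp
    norm_num
  · have h2 : Tendsto (fun e : ℕ => 2 ^ e) atTop atTop :=
      tendsto_atTop_mono (fun e => (Nat.lt_pow_self (n := e) (by norm_num)).le) tendsto_id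
    filter_upwards [eventually_ge_atTop (ν + 1), eventually_ge_atTop 4,
      h2.eventually_ge_atTop (12 * m)] with e he he4 hme k n hn
    have h1 := ineq_odd hm he he4 hme hn
    have h3 : (k : ℝ) * (((m + 1) * 4 ^ e : ℕ) : ℝ) ^ 2 *
        (1 / (288 * ((m : ℝ) + 1) ^ 2 * 2 ^ ν)) * gf m e =
        (k : ℝ) * (2 ^ e * ((2 ^ e - 4) * (2 ^ e - 10)) * (2 ^ e - 12 * m)) /
          (288 * 2 ^ ν) := by
      push_cast
      have h4 : (4 : ℝ) ^ e = (2 ^ e) ^ 2 := by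
        rw [← pow_mul, mul_comm e 2, pow_mul]
        norm_num
      rw [h4, gf]
      have h5 : (2 : ℝ) ^ e ≠ 0 := by positivity
      field_simp
    rw [h3, div_le_iff₀ (by positivity), mul_comm (N (2 * m + 3) n : ℝ)]
    exact h1

/-- the least exponent -/
theorem exists_nu {m : ℕ} (hm : 1 ≤ m) : ∃ ν, m ≤ 2 ^ ν ∧ 2 ^ ν < 2 * m := by
  classical
  have hex : ∃ ν, m ≤ 2 ^ ν := ⟨m, (Nat.lt_pow_self (by norm_num)).le⟩
  refine ⟨Nat.find hex, Nat.find_spec hex, ?_⟩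
  rcases Nat.eq_zero_or_pos (Nat.find hex) with h | h
  · rw [h, pow_zero]
    omega
  · have h1 := Nat.find_min hex (m := Nat.find hex - 1) (by omega)
    have h2 : 2 ^ Nat.find hex = 2 * 2 ^ (Nat.find hex - 1) := by
      rw [← pow_succ']
      congr 1
      omega
    omega

theorem even_t {t : ℕ} (ht : 2 ≤ t) (h2 : Even t) :
    ∀ᶠ n : ℕ in atTop, 3 * (n : ℝ) ^ 2 / (32 * (t : ℝ) ^ 3) ≤ N t n := by
  obtain ⟨m, hm⟩ := h2
  have hm1 : 1 ≤ m := by omega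
  obtain ⟨ν, h3, h4⟩ := exists_nu hm1
  have ht2 : t = 2 * m := by omega
  subst ht2
  have hm0 : (0 : ℝ) < m := by exact_mod_cast hm1
  have h4R : (2 : ℝ) ^ ν < 2 * m := by exact_mod_cast h4
  have hc : 3 / (32 * ((2 * m : ℕ) : ℝ) ^ 3) < 3 / (128 * (m : ℝ) ^ 2 * 2 ^ ν) := by
    rw [div_lt_div_iff₀ (by positivity) (by positivity)]
    push_cast
    have h5 : (m : ℝ) ^ 2 * 2 ^ ν < (m : ℝ) ^ 2 * (2 * m) :=
      mul_lt_mul_of_pos_left h4R (by positivity)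
    nlinarith
  filter_upwards [(even_limits hm1 h3).1 _ hc, eventually_gt_atTop 0] with n h5 hn
  have hn0 : (0 : ℝ) < n := by exact_mod_cast hn
  rw [lt_div_iff₀ (by positivity)] at h5
  calc 3 * (n : ℝ) ^ 2 / (32 * ((2 * m : ℕ) : ℝ) ^ 3) =
        3 / (32 * ((2 * m : ℕ) : ℝ) ^ 3) * (n : ℝ) ^ 2 := by ring
    _ ≤ _ := h5.le

theorem odd_t {t : ℕ} (ht : 3 ≤ t) (h2 : Odd t) :
    ∀ᶠ n : ℕ in atTop, (n : ℝ) ^ 2 / (384 * (t : ℝ) ^ 3) ≤ N t n := by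
  obtain ⟨l, hl⟩ := h2
  have hex : ∃ m, t = 2 * m + 3 := ⟨l - 1, by omega⟩
  obtain ⟨m, rfl⟩ := hex
  have hexν : ∃ ν, m ≤ 2 ^ ν ∧ 2 ^ ν ≤ 2 * m + 1 := by
    rcases Nat.eq_zero_or_pos m with h | h
    · exact ⟨0, by omega, by omega⟩
    · obtain ⟨ν, h3, h4⟩ := exists_nu h
      exact ⟨ν, h3, by omega⟩
  obtain ⟨ν, h3, h4⟩ := hexν
  have h4R : (2 : ℝ) ^ ν ≤ 2 * m + 1 := by exact_mod_cast h4
  have hm0 : (0 : ℝ) ≤ m := by positivity
  have hc : 1 / (384 * ((2 * m + 3 : ℕ) : ℝ) ^ 3) < 1 / (1536 * ((m : ℝ) + 1) ^ 2 * 2 ^ ν) := by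
    rw [div_lt_div_iff₀ (by positivity) (by positivity)]
    push_cast
    have h5 : ((m : ℝ) + 1) ^ 2 * 2 ^ ν ≤ ((m : ℝ) + 1) ^ 2 * (2 * m + 1) :=
      mul_le_mul_of_nonneg_left h4R (by positivity)
    nlinarith [mul_nonneg hm0 hm0, mul_nonneg hm0 (mul_nonneg hm0 hm0)]
  filter_upwards [(odd_limits h3).1 _ hc, eventually_gt_atTop 0] with n h5 hn
  have hn0 : (0 : ℝ) < n := by exact_mod_cast hn
  rw [lt_div_iff₀ (by positivity)] at h5
  calc (n : ℝ) ^ 2 / (384 * ((2 * m + 3 : ℕ) : ℝ) ^ 3) =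
        1 / (384 * ((2 * m + 3 : ℕ) : ℝ) ^ 3) * (n : ℝ) ^ 2 := by ring
    _ ≤ _ := h5.le

end KC
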