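import Pool.Agent.Work.MP_63048f_co.C7

/-!
MP_63048f_co: a lower bound of order `n ^ 2 / t ^ 3` for the maximum number of copies of `K_{t,t}`
in a `K_{2,t+1}`-free graph on `n` vertices, for every `t`.
-/

open SimpleGraph Filter Topology

namespace Pool.Agent.Work.MP_63048f_co.InverseCubeLowerBound

/-- The generalized Turan number `ex(n, H, F)`: the largest number of (not necessarily induced,
unlabelled) subgraphs isomorphic to `H` in a graph on `n` vertices without a subgraph isomorphic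
to `F`. -/
noncomputable def ex {α β : Type} (n : ℕ) (H : SimpleGraph α) (F : SimpleGraph β) : ℕ :=
  sSup {c | ∃ G : SimpleGraph (Fin n), F.Free G ∧ c = G.copyCount H}

/-- `N_t(n) = ex(n, K_{t,t}, K_{2,t+1})`. -/
noncomputable def N (t n : ℕ) : ℕ :=
  ex n (completeBipartiteGraph (Fin t) (Fin t)) (completeBipartiteGraph (Fin 2) (Fin (t + 1)))

/-- For every `t ≥ 2` and all sufficiently large `n` one has `N_t(n) ≥ n ^ 2 / (384 t ^ 3)`, and
even `N_t(n) ≥ 3 n ^ 2 / (32 t ^ 3)` if `t` is even. -/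
theorem result (t : ℕ) (ht : 2 ≤ t) :
    (∀ᶠ n : ℕ in atTop, (n : ℝ) ^ 2 / (384 * (t : ℝ) ^ 3) ≤ N t n) ∧
    (Even t → ∀ᶠ n : ℕ in atTop, 3 * (n : ℝ) ^ 2 / (32 * (t : ℝ) ^ 3) ≤ N t n) := by
  have h0 : (0 : ℝ) < t := by
    have : 0 < t := by omega
    exact_mod_cast this
  refine ⟨?_, fun h => KC.even_t ht h⟩
  rcases Nat.even_or_odd t with h | h
  · filter_upwards [KC.even_t ht h] with n hn
    refine le_trans ?_ hn
    rw [div_le_div_iff₀ (by positivity) (by positivity)]
    nlinarith [mul_nonneg (sq_nonneg (n : ℝ)) (pow_pos h0 3).le]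
  · refine KC.odd_t ?_ h
    obtain ⟨l, hl⟩ := h
    omega

end Pool.Agent.Work.MP_63048f_co.InverseCubeLowerBound
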