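import Mathlib

/-!
# MP_63048f_co, t = 3, part 1 (helper19): vectors in dimension 3 and cyclic shifts
-/

set_option autoImplicit false
set_option linter.unusedSectionVars false

namespace K33

/-- vectors -/
abbrev Vec (R : Type*) := Fin 3 → R

section ring
variable {R : Type*} [CommRing R]

/-- dot product -/
def dt (P Q : Vec R) : R := P 0 * Q 0 + P 1 * Q 1 + P 2 * Q 2

/-- cross product -/
def cr (P Q : Vec R) : Vec R := fun k => P (k + 1) * Q (k + 2) - P (k + 2) * Q (k + 1)

/-- cyclic shift -/
def sh (i : Fin 3) (P : Vec R) : Vec R := fun k => P (k + i)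

theorem sh_sh (i j : Fin 3) (P : Vec R) : sh i (sh j P) = sh (i + j) P := by
  funext k
  unfold sh
  rw [add_assoc]

theorem sh_zero (P : Vec R) : sh 0 P = P := by
  funext k
  unfold sh
  rw [add_zero]

theorem sh_smul (i : Fin 3) (c : R) (P : Vec R) : sh i (c • P) = c • sh i P := rfl

theorem dt_comm (P Q : Vec R) : dt P Q = dt Q P := by
  unfold dt; ring

theorem dt_sh (i : Fin 3) (P Q : Vec R) : dt (sh i P) (sh i Q) = dt P Q := by
  unfold dt sh
  fin_cases i
  · simp
  · simp only [Fin.mk_one, zero_add, Fin.reduceAdd]; ring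
  · simp only [Fin.reduceFinMk, zero_add, Fin.reduceAdd]; ring

theorem cr_sh (i : Fin 3) (P Q : Vec R) : cr (sh i P) (sh i Q) = sh i (cr P Q) := by
  funext k
  unfold cr sh
  rw [add_right_comm k 1 i, add_right_comm k 2 i]

theorem dt_cr_left (P Q : Vec R) : dt P (cr P Q) = 0 := by
  unfold dt cr
  simp only [zero_add, Fin.reduceAdd]; ring

theorem dt_cr_right (P Q : Vec R) : dt Q (cr P Q) = 0 := by
  unfold dt cr
  simp only [zero_add, Fin.reduceAdd]; ring

theorem dt_smul_left (c : R) (P Q : Vec R) : dt (c • P) Q = c * dt P Q := by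
  unfold dt
  simp only [Pi.smul_apply, smul_eq_mul]; ring

theorem dt_smul_right (c : R) (P Q : Vec R) : dt P (c • Q) = c * dt P Q := by
  unfold dt
  simp only [Pi.smul_apply, smul_eq_mul]; ring

theorem dt_add_right (P Q S : Vec R) : dt P (Q + S) = dt P Q + dt P S := by
  unfold dt
  simp only [Pi.add_apply]; ring

/-- the closure identity -/
theorem closure_id (P Q : Vec R) :
    cr P Q + (cr (sh 1 P) (sh 2 Q) + cr (sh 2 P) (sh 1 Q)) = 0 := by
  funext k
  fin_cases k
  · simp only [cr, sh, Pi.add_apply, Pi.zero_apply, Fin.zero_eta, zero_add, Fin.reduceAdd]; ring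
  · simp only [cr, sh, Pi.add_apply, Pi.zero_apply, Fin.mk_one, Fin.reduceAdd]; ring
  · simp only [cr, sh, Pi.add_apply, Pi.zero_apply, Fin.reduceFinMk, Fin.reduceAdd]; ring

/-- naturality -/
theorem cr_map {S : Type*} [CommRing S] (φ : R →+* S) (P Q : Vec R) :
    (fun k => φ (cr P Q k)) = cr (fun k => φ (P k)) (fun k => φ (Q k)) := by
  funext k
  simp only [cr, map_sub, map_mul]

theorem sh_map {S : Type*} [CommRing S] (φ : R →+* S) (i : Fin 3) (P : Vec R) :
    (fun k => φ (sh i P k)) = sh i (fun k => φ (P k)) := rfl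

/-- the third vertex -/
def third (P Q : Vec R) : Vec R := cr (cr P Q) (sh 1 (cr P (sh 1 Q)))

theorem third_perp (P Q : Vec R) (j : Fin 3) : dt (third P Q) (sh j (cr P (sh j Q))) = 0 := by
  have h0 : dt (third P Q) (cr P Q) = 0 := by
    rw [dt_comm]; exact dt_cr_left _ _
  have h1 : dt (third P Q) (sh 1 (cr P (sh 1 Q))) = 0 := by
    rw [dt_comm]; exact dt_cr_right _ _
  fin_cases j
  · simp only [Fin.zero_eta, sh_zero]
    exact h0
  · exact h1
  · have h2 := closure_id P Q
    have e1 : cr (sh 1 P) (sh 2 Q) = sh 1 (cr P (sh 1 Q)) := by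
      rw [← cr_sh, sh_sh]; rfl
    have e2 : cr (sh 2 P) (sh 1 Q) = sh 2 (cr P (sh 2 Q)) := by
      rw [← cr_sh, sh_sh]; rfl
    rw [e1, e2] at h2
    have h3 : dt (third P Q) (cr P Q + (sh 1 (cr P (sh 1 Q)) + sh 2 (cr P (sh 2 Q)))) = 0 := by
      rw [h2]
      unfold dt
      simp
    rw [dt_add_right, dt_add_right, h0, h1, zero_add, zero_add] at h3
    exact h3

end ring

section field
variable {F : Type*} [Field F]

theorem exists_smul_of_cr_eq_zero {P Q : Vec F} (hP : P ≠ 0) (h : cr P Q = 0) :
    ∃ c : F, Q = c • P := by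
  have h0 := congrFun h 0
  have h1 := congrFun h 1
  have h2 := congrFun h 2
  simp only [cr, Pi.zero_apply, zero_add, Fin.reduceAdd] at h0 h1 h2
  have hex : ∃ k, P k ≠ 0 := by
    by_contra hcon
    push Not at hcon
    exact hP (funext hcon)
  obtain ⟨k, hk⟩ := hex
  refine ⟨Q k / P k, ?_⟩
  funext j
  rw [Pi.smul_apply, smul_eq_mul, div_mul_eq_mul_div, eq_div_iff hk]
  fin_cases k <;> fin_cases j <;>
    simp only [Fin.zero_eta, Fin.mk_one, Fin.reduceFinMk] <;>
    first
    | ring1
    | linear_combination h0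
    | linear_combination h1
    | linear_combination h2
    | linear_combination -h0
    | linear_combination -h1
    | linear_combination -h2

theorem cr_smul_eq_zero (c : F) (P : Vec F) : cr P (c • P) = 0 := by
  funext k
  simp only [cr, Pi.smul_apply, smul_eq_mul, Pi.zero_apply]
  ring

/-- a vector orthogonal to two independent vectors is a multiple of the cross product -/
theorem perp_two {P Q S : Vec F} (h : cr P Q ≠ 0) (h1 : dt P S = 0) (h2 : dt Q S = 0) :
    ∃ c : F, S = c • cr P Q := by
  refine exists_smul_of_cr_eq_zero h ?_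
  have key : cr (cr P Q) S = (dt P S) • Q - (dt Q S) • P := by
    funext k
    fin_cases k
    · simp only [cr, dt, Pi.sub_apply, Pi.smul_apply, smul_eq_mul, Fin.zero_eta, zero_add,
        Fin.reduceAdd]; ring
    · simp only [cr, dt, Pi.sub_apply, Pi.smul_apply, smul_eq_mul, Fin.mk_one,
        Fin.reduceAdd]; ring
    · simp only [cr, dt, Pi.sub_apply, Pi.smul_apply, smul_eq_mul, Fin.reduceFinMk,
        Fin.reduceAdd]; ring
  rw [key, h1, h2]
  simp

end field

end K33
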