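import Mathlib
import Pool.Agent.Work.MP_63048f_co.K1

/-!
# MP_63048f_co, t = 3, part 2 (helper19): the graph
-/

set_option autoImplicit false
set_option linter.unusedSectionVars false

namespace K33

variable {F : Type} [Field F]

/-- valid vectors: not proportional to their shift -/
def Val (P : Vec F) : Prop := cr P (sh 1 P) ≠ 0

/-- equivalence -/
def Eqv (P Q : Vec F) : Prop := ∃ (c : Fˣ) (i : Fin 3), Q = (c : F) • sh i P

theorem Eqv.refl (P : Vec F) : Eqv P P := ⟨1, 0, by simp [sh_zero]⟩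

theorem fin3_neg (i : Fin 3) : -i + i = 0 := by
  fin_cases i <;> rfl

theorem Eqv.symm {P Q : Vec F} (h : Eqv P Q) : Eqv Q P := by
  obtain ⟨c, i, rfl⟩ := h
  refine ⟨c⁻¹, -i, ?_⟩
  rw [sh_smul, sh_sh, fin3_neg, sh_zero, smul_smul]
  simp

theorem Eqv.trans {P Q S : Vec F} (h : Eqv P Q) (h' : Eqv Q S) : Eqv P S := by
  obtain ⟨c, i, rfl⟩ := h
  obtain ⟨d, j, rfl⟩ := h'
  refine ⟨d * c, j + i, ?_⟩
  rw [sh_smul, sh_sh, smul_smul]
  simp

theorem cr_smul_smul (c d : F) (P Q : Vec F) : cr (c • P) (d • Q) = (c * d) • cr P Q := by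
  funext k
  simp only [cr, Pi.smul_apply, smul_eq_mul]
  ring

theorem sh_eq_zero {i : Fin 3} {P : Vec F} (h : sh i P = 0) : P = 0 := by
  have h1 : sh (-i) (sh i P) = sh (-i) 0 := by rw [h]
  rw [sh_sh, fin3_neg, sh_zero] at h1
  rw [h1]
  rfl

theorem Val.eqv {P Q : Vec F} (h : Val P) (h' : Eqv P Q) : Val Q := by
  obtain ⟨c, i, rfl⟩ := h'
  intro h1
  rw [sh_smul, cr_smul_smul, sh_sh, add_comm (1 : Fin 3) i, ← sh_sh, cr_sh] at h1
  have h2 := (smul_eq_zero.1 h1).resolve_left (by simp)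
  exact h (sh_eq_zero h2)

theorem Val.ne_zero {P : Vec F} (h : Val P) : P ≠ 0 := by
  rintro rfl
  refine h ?_
  funext k
  simp [cr]

/-- equivalence of valid vectors -/
instance stm (F : Type) [Field F] : Setoid {P : Vec F // Val P} where
  r P Q := Eqv P.1 Q.1
  iseqv := ⟨fun P => Eqv.refl _, fun h => h.symm, fun h h' => h.trans h'⟩

/-- the vertices -/
def V (F : Type) [Field F] : Type := Quotient (stm F)

/-- class of a vector -/
def cl (P : {P : Vec F // Val P}) : V F := Quotient.mk (stm F) P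

theorem cl_eq {P Q : {P : Vec F // Val P}} : cl P = cl Q ↔ Eqv P.1 Q.1 :=
  Quotient.eq (r := stm F)

theorem exists_cl (A : V F) : ∃ P, cl P = A := Quotient.exists_rep A

/-- the graph -/
def G (F : Type) [Field F] : SimpleGraph (V F) where
  Adj A B := A ≠ B ∧ ∃ P Q : {P : Vec F // Val P}, cl P = A ∧ cl Q = B ∧ dt P.1 Q.1 = 0
  symm := ⟨fun A B h => ⟨h.1.symm, by
    obtain ⟨_, P, Q, h1, h2, h3⟩ := h
    exact ⟨Q, P, h2, h1, by rw [dt_comm]; exact h3⟩⟩⟩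
  loopless := ⟨fun A h => h.1 rfl⟩

theorem G_adj {A B : V F} : (G F).Adj A B ↔ A ≠ B ∧
    ∃ P Q : {P : Vec F // Val P}, cl P = A ∧ cl Q = B ∧ dt P.1 Q.1 = 0 := Iff.rfl

/-- adjacency through vectors, up to shift -/
theorem adj_of {P Q : {P : Vec F // Val P}} {i : Fin 3} (hne : ¬ Eqv P.1 Q.1)
    (h : dt P.1 (sh i Q.1) = 0) : (G F).Adj (cl P) (cl Q) := by
  refine G_adj.2 ⟨fun h' => hne (cl_eq.1 h'), P, ⟨sh i Q.1, Val.eqv Q.2 ⟨1, i, by simp⟩⟩, rfl, ?_, h⟩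
  exact cl_eq.2 (Eqv.symm ⟨1, i, by simp⟩)

/-- codegrees are at most three -/
theorem codeg {A B : V F} (hAB : A ≠ B) : ∃ m : V F → Fin 3, ∀ C C', (G F).Adj A C →
    (G F).Adj B C → (G F).Adj A C' → (G F).Adj B C' → m C = m C' → C = C' := by
  classical
  obtain ⟨P, rfl⟩ := exists_cl A
  obtain ⟨Q, rfl⟩ := exists_cl B
  have key : ∀ C, (G F).Adj (cl P) C → (G F).Adj (cl Q) C →
      ∃ (m : Fin 3) (R : {P : Vec F // Val P}) (c : F), cl R = C ∧
        R.1 = c • cr P.1 (sh m Q.1) := by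
    intro C h1 h2
    obtain ⟨_, P', R, hP', hR, hd⟩ := h1
    obtain ⟨_, Q', R', hQ', hR', hd'⟩ := h2
    obtain ⟨c, i, hc⟩ := cl_eq.1 hP'.symm
    obtain ⟨d, j, hd1⟩ := cl_eq.1 hQ'.symm
    obtain ⟨e, l, he⟩ := cl_eq.1 (hR.trans hR'.symm)
    -- `R'' = sh (-i) R`
    have hRval : Val (sh (-i) R.1) := Val.eqv R.2 ⟨1, -i, by simp⟩
    rw [hc, dt_smul_left] at hd
    have hd2 : dt (sh i P.1) R.1 = 0 := (mul_eq_zero.1 hd).resolve_left c.ne_zero
    have hd3 : dt P.1 (sh (-i) R.1) = 0 := by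
      rw [← dt_sh i, sh_sh]
      have : i + -i = 0 := by rw [add_comm]; exact fin3_neg i
      rw [this, sh_zero]
      exact hd2
    rw [hd1, he, dt_smul_left, dt_smul_right] at hd'
    have hd4 : dt (sh j Q.1) (sh l R.1) = 0 := by
      have h5 := (mul_eq_zero.1 hd').resolve_left d.ne_zero
      exact (mul_eq_zero.1 h5).resolve_left e.ne_zero
    have hd5 : dt (sh (-i + -l + j) Q.1) (sh (-i) R.1) = 0 := by
      rw [← dt_sh (-i + -l), sh_sh, sh_sh] at hd4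
      have : -i + -l + l = -i := by
        rw [add_assoc, fin3_neg, add_zero]
      rw [this] at hd4
      exact hd4
    have hne : cr P.1 (sh (-i + -l + j) Q.1) ≠ 0 := by
      intro h0
      obtain ⟨x, hx⟩ := exists_smul_of_cr_eq_zero P.2.ne_zero h0
      have hx0 : x ≠ 0 := by
        rintro rfl
        rw [zero_smul] at hx
        exact Q.2.ne_zero (sh_eq_zero hx)
      refine hAB (cl_eq.2 ?_)
      have h6 : Eqv P.1 (sh (-i + -l + j) Q.1) := ⟨Units.mk0 x hx0, 0, by rw [sh_zero]; exact hx⟩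
      exact h6.trans (Eqv.symm ⟨1, _, (one_smul _ _).symm⟩)
    obtain ⟨x, hx⟩ := perp_two hne hd3 hd5
    exact ⟨_, ⟨sh (-i) R.1, hRval⟩, x, by
      rw [← hR]
      exact cl_eq.2 (Eqv.symm ⟨1, _, (one_smul _ _).symm⟩), hx⟩
  refine ⟨fun C => if h : (G F).Adj (cl P) C ∧ (G F).Adj (cl Q) C then
    (key C h.1 h.2).choose else 0, fun C C' h1 h2 h3 h4 hm => ?_⟩
  simp only at hm
  rw [dif_pos ⟨h1, h2⟩, dif_pos ⟨h3, h4⟩] at hm
  obtain ⟨R, c, hR, hc⟩ := (key C h1 h2).choose_spec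
  obtain ⟨R', c', hR', hc'⟩ := (key C' h3 h4).choose_spec
  rw [hm] at hc
  have hc0 : c ≠ 0 := by
    rintro rfl
    rw [zero_smul] at hc
    exact R.2.ne_zero hc
  have hc0' : c' ≠ 0 := by
    rintro rfl
    rw [zero_smul] at hc'
    exact R'.2.ne_zero hc'
  rw [← hR, ← hR', cl_eq]
  refine ⟨Units.mk0 (c' / c) (div_ne_zero hc0' hc0), 0, ?_⟩
  rw [sh_zero, hc, hc', smul_smul]
  simp [hc0]

/-- the graph is `K_{2,4}`-free -/
theorem G_free : (completeBipartiteGraph (Fin 2) (Fin 4)).Free (G F) := by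
  rintro ⟨f⟩
  have hinj := f.injective
  have hAB : f (Sum.inl 0) ≠ f (Sum.inl 1) := fun h => by
    have := hinj h
    simp at this
  obtain ⟨m, hm⟩ := codeg hAB
  have hadj : ∀ (i : Fin 2) (j : Fin 4), (G F).Adj (f (Sum.inl i)) (f (Sum.inr j)) := fun i j =>
    f.toHom.map_adj (by simp)
  obtain ⟨j, j', hjj, hmj⟩ := Fintype.exists_ne_map_eq_of_card_lt
    (fun j : Fin 4 => m (f (Sum.inr j))) (by simp)
  have h1 := hm _ _ (hadj 0 j) (hadj 1 j) (hadj 0 j') (hadj 1 j') hmj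
  have h2 := hinj h1
  simp only [Sum.inr.injEq] at h2
  exact hjj h2

end K33
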