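import Mathlib
import Pool.Agent.Work.MP_63048f_co.K2

/-!
# MP_63048f_co, t = 3, part 3 (helper19): counting vertices
-/

set_option autoImplicit false
set_option linter.unusedSectionVars false

namespace K33

variable {F : Type} [Field F]

theorem eq_zero_of_sh {P : Vec F} (hP : Val P) {i : Fin 3} {e : F} (h : sh i P = e • P) : i = 0 := by
  by_contra hi
  have h12 : i = 1 ∨ i = 2 := by
    fin_cases i
    · exact absurd rfl hi
    · exact Or.inl rfl
    · exact Or.inr rfl
  rcases h12 with rfl | rfl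
  · apply hP
    rw [h]
    exact cr_smul_eq_zero e P
  · apply hP
    have h1 : P = e • sh 1 P := by
      have h2 : sh 1 (sh 2 P) = sh 1 (e • P) := by rw [h]
      rw [sh_sh, sh_smul] at h2
      have h3 : (1 : Fin 3) + 2 = 0 := rfl
      rw [h3, sh_zero] at h2
      exact h2
    have h2 : cr P (sh 1 P) = cr (e • sh 1 P) ((1 : F) • sh 1 P) := by
      rw [one_smul, ← h1]
    rw [h2, cr_smul_smul]
    have h3 : cr (sh 1 P) (sh 1 P) = 0 := by
      have := cr_smul_eq_zero (1 : F) (sh 1 P)
      rwa [one_smul] at this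
    rw [h3, smul_zero]

/-- the elements of a class -/
def elt (P : {P : Vec F // Val P}) (x : Fˣ × Fin 3) : {P : Vec F // Val P} :=
  ⟨(x.1 : F) • sh x.2 P.1, Val.eqv P.2 ⟨x.1, x.2, rfl⟩⟩

theorem elt_cl (P : {P : Vec F // Val P}) (x : Fˣ × Fin 3) : cl (elt P x) = cl P :=
  cl_eq.2 (Eqv.symm ⟨x.1, x.2, rfl⟩)

theorem elt_injective (P : {P : Vec F // Val P}) : Function.Injective (elt P) := by
  rintro ⟨c, i⟩ ⟨d, j⟩ h
  have h1 : (c : F) • sh i P.1 = (d : F) • sh j P.1 := congrArg Subtype.val h
  have h2 : sh (-j + i) P.1 = ((c : F)⁻¹ * d) • P.1 := by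
    have h3 : sh (-j) ((c : F) • sh i P.1) = sh (-j) ((d : F) • sh j P.1) := by rw [h1]
    rw [sh_smul, sh_smul, sh_sh, sh_sh, fin3_neg, sh_zero] at h3
    rw [mul_smul, ← h3, smul_smul, inv_mul_cancel₀ c.ne_zero, one_smul]
  have h4 := eq_zero_of_sh P.2 h2
  have h5 : i = j := by
    have : j + (-j + i) = j + 0 := by rw [h4]
    rw [← add_assoc, add_comm j (-j), fin3_neg, zero_add, add_zero] at this
    exact this
  subst h5
  have h6 : sh i P.1 ≠ 0 := fun h => P.2.ne_zero (sh_eq_zero h)
  have h7 : (c : F) = d := by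
    have h8 : ((c : F) - d) • sh i P.1 = 0 := by rw [sub_smul, h1, sub_self]
    exact sub_eq_zero.1 ((smul_eq_zero.1 h8).resolve_right h6)
  rw [Units.ext h7]

theorem elt_surj (P : {P : Vec F // Val P}) {Q : {P : Vec F // Val P}} (h : cl Q = cl P) :
    ∃ x, elt P x = Q := by
  obtain ⟨c, i, hc⟩ := cl_eq.1 h.symm
  exact ⟨(c, i), Subtype.ext hc.symm⟩

variable [Finite F]

instance : Finite {P : Vec F // Val P} := Subtype.finite
instance : Finite (V F) := Quotient.finite _

theorem fiber_card (A : V F) :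
    Nat.card {P : {P : Vec F // Val P} // cl P = A} = (Nat.card F - 1) * 3 := by
  obtain ⟨P, rfl⟩ := exists_cl A
  have e : (Fˣ × Fin 3) ≃ {Q : {P : Vec F // Val P} // cl Q = cl P} :=
    Equiv.ofBijective (fun x => ⟨elt P x, elt_cl P x⟩) ⟨fun x y h => elt_injective P
      (congrArg Subtype.val h), fun Q => by
        obtain ⟨x, hx⟩ := elt_surj P Q.2
        exact ⟨x, Subtype.ext hx⟩⟩
  rw [← Nat.card_congr e, Nat.card_prod, Nat.card_units, Nat.card_fin]

theorem card_val : Nat.card {P : Vec F // Val P} = Nat.card (V F) * ((Nat.card F - 1) * 3) := by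
  classical
  have e := Equiv.sigmaFiberEquiv (cl : {P : Vec F // Val P} → V F)
  rw [← Nat.card_congr e]
  have : Fintype (V F) := Fintype.ofFinite _
  rw [Nat.card_sigma, Finset.sum_congr rfl fun A _ => fiber_card A, Finset.sum_const,
    smul_eq_mul, Nat.card_eq_fintype_card (α := V F), Finset.card_univ]

theorem card_val_lt : Nat.card {P : Vec F // Val P} < Nat.card F ^ 3 := by
  have h1 : Nat.card (Vec F) = Nat.card F ^ 3 := by
    rw [Nat.card_fun]
    simp
  rw [← h1]
  have : Fintype (Vec F) := Fintype.ofFinite _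
  classical
  rw [Nat.card_eq_fintype_card, Nat.card_eq_fintype_card]
  exact Fintype.card_subtype_lt (x := (0 : Vec F)) fun h => h.ne_zero rfl

/-- the number of vertices -/
theorem card_V : 3 * Nat.card (V F) ≤ Nat.card F ^ 2 + Nat.card F + 1 := by
  have h1 := card_val (F := F)
  have h2 := card_val_lt (F := F)
  have h3 : 1 < Nat.card F := Finite.one_lt_card
  rw [h1] at h2
  obtain ⟨q, hq⟩ : ∃ q, Nat.card F = q + 2 := ⟨Nat.card F - 2, by omega⟩
  rw [hq] at h2 ⊢
  have h4 : q + 2 - 1 = q + 1 := by omega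
  rw [h4] at h2
  by_contra hcon
  rw [not_le] at hcon
  have h5 : ((q + 2) ^ 2 + (q + 2) + 1 + 1) * (q + 1) ≤ 3 * Nat.card (V F) * (q + 1) :=
    Nat.mul_le_mul_right _ hcon
  nlinarith

/-- pairs of vectors and pairs of classes -/
theorem card_pairs (T : Set (V F × V F)) :
    Nat.card {x : {P : Vec F // Val P} × {P : Vec F // Val P} // (cl x.1, cl x.2) ∈ T} =
      Nat.card T * (((Nat.card F - 1) * 3) * ((Nat.card F - 1) * 3)) := by
  classical
  let f : {x : {P : Vec F // Val P} × {P : Vec F // Val P} // (cl x.1, cl x.2) ∈ T} → T :=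
    fun x => ⟨(cl x.1.1, cl x.1.2), x.2⟩
  have e := Equiv.sigmaFiberEquiv f
  rw [← Nat.card_congr e]
  have : Fintype T := Fintype.ofFinite _
  rw [Nat.card_sigma]
  have h1 : ∀ y : T, Nat.card {x // f x = y} =
      ((Nat.card F - 1) * 3) * ((Nat.card F - 1) * 3) := by
    rintro ⟨⟨A, B⟩, hy⟩
    have e2 : {x // f x = ⟨(A, B), hy⟩} ≃
        {P : {P : Vec F // Val P} // cl P = A} × {P : {P : Vec F // Val P} // cl P = B} :=
      { toFun := fun x => (⟨x.1.1.1, by
            have h := congrArg (fun y : T => y.1.1) x.2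
            exact h⟩, ⟨x.1.1.2, by
            have h := congrArg (fun y : T => y.1.2) x.2
            exact h⟩)
        invFun := fun x => ⟨⟨(x.1.1, x.2.1), by
            rw [x.1.2, x.2.2]
            exact hy⟩, by
            refine Subtype.ext ?_
            simp only [f]
            rw [x.1.2, x.2.2]⟩
        left_inv := fun x => rfl
        right_inv := fun x => rfl }
    rw [Nat.card_congr e2, Nat.card_prod, fiber_card, fiber_card]
  rw [Finset.sum_congr rfl fun y _ => h1 y, Finset.sum_const, smul_eq_mul,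
    Nat.card_eq_fintype_card (α := T), Finset.card_univ]

end K33
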