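import Mathlib
import Pool.Agent.Work.MP_63048f_co.K3

/-!
# MP_63048f_co, t = 3, part 4 (helper19): generic pairs
-/

set_option autoImplicit false
set_option linter.unusedSectionVars false

namespace K33

section ring
variable {R : Type*} [CommRing R]

/-- the six vectors -/
def W (P Q : Vec R) : Fin 6 → Vec R :=
  ![P, Q, third P Q, cr P Q, cr P (sh 1 Q), cr P (sh 2 Q)]

/-- index set of the conditions -/
def idx : Finset (Fin 6 × Fin 6 × Fin 3) :=
  Finset.univ.filter fun x => ¬ (x.1 = x.2.1 ∧ x.2.2 = 0)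

/-- product of all conditions -/
def D (P Q : Vec R) : R := ∏ x ∈ idx, cr (W P Q x.1) (sh x.2.2 (W P Q x.2.1)) 0

theorem W_map {S : Type*} [CommRing S] (φ : R →+* S) (P Q : Vec R) (a : Fin 6) :
    (fun k => φ (W P Q a k)) = W (fun k => φ (P k)) (fun k => φ (Q k)) a := by
  fin_cases a
  · rfl
  · rfl
  · exact (cr_map φ _ _).trans (by rw [cr_map, sh_map, cr_map, sh_map]; rfl)
  · exact cr_map φ _ _
  · exact (cr_map φ _ _).trans (by rw [sh_map]; rfl)
  · exact (cr_map φ _ _).trans (by rw [sh_map]; rfl)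

theorem D_map {S : Type*} [CommRing S] (φ : R →+* S) (P Q : Vec R) :
    φ (D P Q) = D (fun k => φ (P k)) (fun k => φ (Q k)) := by
  unfold D
  rw [map_prod]
  refine Finset.prod_congr rfl fun x _ => ?_
  rw [← W_map, ← W_map, ← sh_map, ← cr_map]

end ring

theorem D_int : D (![1, 0, 2] : Vec ℤ) ![3, 1, 7] ≠ 0 := by
  unfold D
  rw [Finset.prod_ne_zero_iff]
  decide +kernel

open MvPolynomial in
/-- the polynomial -/
noncomputable def Dpoly : MvPolynomial (Fin 6) ℤ := D ![X 0, X 1, X 2] ![X 3, X 4, X 5]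

theorem Dpoly_eval {R : Type*} [CommRing R] (v : Fin 6 → R) :
    MvPolynomial.eval v (MvPolynomial.map (Int.castRingHom R) Dpoly) =
      D ![v 0, v 1, v 2] ![v 3, v 4, v 5] := by
  have h : MvPolynomial.eval v (MvPolynomial.map (Int.castRingHom R) Dpoly) =
      MvPolynomial.eval₂Hom (Int.castRingHom R) v Dpoly := by
    rw [MvPolynomial.eval_map, MvPolynomial.coe_eval₂Hom]
  rw [h]
  unfold Dpoly
  rw [D_map]
  congr 1
  · funext k
    fin_cases k <;> simp
  · funext k
    fin_cases k <;> simp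

theorem totalDegree_map_le' {R : Type*} [CommRing R] (P : MvPolynomial (Fin 6) ℤ) :
    (MvPolynomial.map (Int.castRingHom R) P).totalDegree ≤ P.totalDegree := by
  unfold MvPolynomial.totalDegree
  exact Finset.sup_mono (MvPolynomial.support_map_subset _ _)

/-- Schwartz–Zippel -/
theorem few_bad : ∃ d p0 : ℕ, ∀ p : ℕ, p0 ≤ p → ∀ _ : Fact p.Prime,
    Nat.card {v : Fin 6 → ZMod p // D ![v 0, v 1, v 2] ![v 3, v 4, v 5] = 0} ≤ d * p ^ 5 := by
  refine ⟨Dpoly.totalDegree, (D (![1, 0, 2] : Vec ℤ) ![3, 1, 7]).natAbs + 1, fun p hp hpr => ?_⟩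
  classical
  set Q := MvPolynomial.map (Int.castRingHom (ZMod p)) Dpoly with hQ
  have hQ0 : Q ≠ 0 := by
    intro h0
    have h1 := Dpoly_eval (R := ZMod p) (fun i => ((![1, 0, 2, 3, 1, 7] : Fin 6 → ℤ) i : ZMod p))
    rw [← hQ, h0, map_zero] at h1
    have h2 := D_map (Int.castRingHom (ZMod p)) (![1, 0, 2] : Vec ℤ) ![3, 1, 7]
    have h3 : D (fun k => (Int.castRingHom (ZMod p)) ((![1, 0, 2] : Vec ℤ) k))
        (fun k => (Int.castRingHom (ZMod p)) ((![3, 1, 7] : Vec ℤ) k)) = 0 := by
      rw [h1]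
      congr 1
      · funext k
        fin_cases k <;> simp
      · funext k
        fin_cases k <;> simp
    rw [h3] at h2
    have h4 : ((D (![1, 0, 2] : Vec ℤ) ![3, 1, 7] : ℤ) : ZMod p) = 0 := h2
    rw [ZMod.intCast_zmod_eq_zero_iff_dvd] at h4
    have h5 := Int.natAbs_dvd_natAbs.2 h4
    rw [Int.natAbs_natCast] at h5
    have h6 := Nat.le_of_dvd (Int.natAbs_pos.2 D_int) h5
    omega
  have hsz := MvPolynomial.schwartz_zippel_totalDegree hQ0 (Finset.univ : Finset (ZMod p))
  have hp0 : 0 < p := hpr.out.pos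
  rw [Finset.card_univ, ZMod.card] at hsz
  have hcard : Nat.card {v : Fin 6 → ZMod p // D ![v 0, v 1, v 2] ![v 3, v 4, v 5] = 0} =
      (Finset.filter (fun f : Fin 6 → ZMod p => MvPolynomial.eval f Q = 0)
        (Fintype.piFinset fun _ => Finset.univ)).card := by
    rw [Nat.card_eq_fintype_card, Fintype.card_subtype]
    congr 1
    ext f
    simp only [Finset.mem_filter, Finset.mem_univ, true_and, Fintype.mem_piFinset,
      implies_true]
    rw [hQ, Dpoly_eval]
  rw [hcard]
  have hp' : (0 : NNRat) < (p : NNRat) := by exact_mod_cast hp0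
  rw [div_le_div_iff₀ (by positivity) hp'] at hsz
  have h7 : (Finset.filter (fun f : Fin 6 → ZMod p => MvPolynomial.eval f Q = 0)
        (Fintype.piFinset fun _ => Finset.univ)).card * p ≤ Q.totalDegree * p ^ 6 := by
    exact_mod_cast hsz
  have h8 := totalDegree_map_le' (R := ZMod p) Dpoly
  rw [← hQ] at h8
  have h9 : Q.totalDegree * p ^ 6 ≤ (Dpoly.totalDegree * p ^ 5) * p := by
    calc Q.totalDegree * p ^ 6 ≤ Dpoly.totalDegree * p ^ 6 := Nat.mul_le_mul_right _ h8
      _ = _ := by ring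
  exact Nat.le_of_mul_le_mul_right (h7.trans h9) hp0

section field
variable {F : Type} [Field F]

theorem generic_val {P Q : Vec F} (h : D P Q ≠ 0) (a : Fin 6) : Val (W P Q a) := by
  unfold D at h
  rw [Finset.prod_ne_zero_iff] at h
  intro h0
  refine h (a, a, 1) ?_ ?_
  · unfold idx
    rw [Finset.mem_filter]
    exact ⟨Finset.mem_univ _, fun h => absurd (show (1 : Fin 3) = 0 from h.2) (by decide)⟩
  · simp only
    rw [h0]
    rfl

theorem generic_ne {P Q : Vec F} (h : D P Q ≠ 0) {a b : Fin 6} (hab : a ≠ b) :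
    ¬ Eqv (W P Q a) (W P Q b) := by
  unfold D at h
  rw [Finset.prod_ne_zero_iff] at h
  rintro ⟨c, i, hc⟩
  refine h (b, a, i) ?_ ?_
  · unfold idx
    rw [Finset.mem_filter]
    exact ⟨Finset.mem_univ _, fun h => hab h.1.symm⟩
  · simp only
    rw [hc]
    have h1 : cr ((c : F) • sh i (W P Q a)) ((1 : F) • sh i (W P Q a)) = 0 := by
      rw [cr_smul_smul]
      have h3 : cr (sh i (W P Q a)) (sh i (W P Q a)) = 0 := by
        have := cr_smul_eq_zero (1 : F) (sh i (W P Q a))
        rwa [one_smul] at this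
      rw [h3, smul_zero]
    rw [one_smul] at h1
    rw [h1]
    rfl

/-- the six vertices -/
def vx {P Q : Vec F} (h : D P Q ≠ 0) (a : Fin 6) : V F := cl ⟨W P Q a, generic_val h a⟩

theorem vx_injective {P Q : Vec F} (h : D P Q ≠ 0) : Function.Injective (vx h) := by
  intro a b hab
  by_contra hne
  exact generic_ne h hne (cl_eq.1 hab)

/-- left and right vertices -/
def emb : Fin 3 ⊕ Fin 3 → Fin 6 := Sum.elim ![0, 1, 2] ![3, 4, 5]

theorem emb_injective : Function.Injective emb := by decide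

theorem perp_all (P Q : Vec F) (i j : Fin 3) :
    ∃ l : Fin 3, dt (W P Q (emb (Sum.inl i))) (sh l (W P Q (emb (Sum.inr j)))) = 0 := by
  fin_cases i
  · refine ⟨0, ?_⟩
    rw [sh_zero]
    fin_cases j
    · exact dt_cr_left _ _
    · exact dt_cr_left _ _
    · exact dt_cr_left _ _
  · fin_cases j
    · refine ⟨0, ?_⟩
      rw [sh_zero]
      exact dt_cr_right P Q
    · refine ⟨2, ?_⟩
      rw [← dt_sh 1, sh_sh]
      have h3 : (1 : Fin 3) + 2 = 0 := rfl
      rw [h3, sh_zero]
      exact dt_cr_right P (sh 1 Q)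
    · refine ⟨1, ?_⟩
      rw [← dt_sh 2, sh_sh]
      have h3 : (2 : Fin 3) + 1 = 0 := rfl
      rw [h3, sh_zero]
      exact dt_cr_right P (sh 2 Q)
  · refine ⟨j, ?_⟩
    fin_cases j
    · have h := third_perp P Q 0
      rw [sh_zero Q] at h
      exact h
    · exact third_perp P Q 1
    · exact third_perp P Q 2

theorem vx_adj {P Q : Vec F} (h : D P Q ≠ 0) (i j : Fin 3) :
    (G F).Adj (vx h (emb (Sum.inl i))) (vx h (emb (Sum.inr j))) := by
  obtain ⟨l, hl⟩ := perp_all P Q i j
  have hne : emb (Sum.inl i) ≠ emb (Sum.inr j) := fun h' => by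
    have := emb_injective h'
    simp at this
  exact adj_of (i := l) (generic_ne h hne) hl

/-- a copy of `K_{3,3}` through every generic pair -/
def cp {P Q : Vec F} (h : D P Q ≠ 0) :
    (completeBipartiteGraph (Fin 3) (Fin 3)).Copy (G F) where
  toHom :=
    { toFun := fun x => vx h (emb x)
      map_rel' := by
        intro x y hxy
        rcases x with i | i <;> rcases y with j | j
        · simp at hxy
        · exact vx_adj h i j
        · exact (vx_adj h j i).symm
        · simp at hxy }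
  injective' := fun x y hxy => emb_injective (vx_injective h hxy)

end field

end K33
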