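import Mathlib

/-!
# MP_63048f_co, t = 3, part 5 (helper19): counting copies of `K_{3,3}`
-/

set_option autoImplicit false
set_option linter.unusedSectionVars false

namespace K33

open SimpleGraph

/-- `K_{3,3}` -/
abbrev KK : SimpleGraph (Fin 3 ⊕ Fin 3) := completeBipartiteGraph (Fin 3) (Fin 3)

variable {V : Type} (G : SimpleGraph V)

/-- copies -/
def Cps : Type := {S : G.Subgraph // Nonempty (KK ≃g S.coe)}

theorem copyCount_eq [Fintype V] : G.copyCount KK = Nat.card (Cps G) := by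
  classical
  unfold Cps
  rw [Nat.card_eq_fintype_card, Fintype.card_subtype]
  unfold SimpleGraph.copyCount
  congr!

/-- pairs on one side -/
def Pr (S : G.Subgraph) : Type :=
  {x : V × V // x.1 ∈ S.verts ∧ x.2 ∈ S.verts ∧ x.1 ≠ x.2 ∧ ¬ S.Adj x.1 x.2}

theorem card_side : Nat.card {y : (Fin 3 ⊕ Fin 3) × (Fin 3 ⊕ Fin 3) //
    y.1 ≠ y.2 ∧ ¬ KK.Adj y.1 y.2} = 12 := by
  have e : {y : (Fin 3 ⊕ Fin 3) × (Fin 3 ⊕ Fin 3) // y.1 ≠ y.2 ∧ ¬ KK.Adj y.1 y.2} ≃
      {y : (Fin 3 ⊕ Fin 3) × (Fin 3 ⊕ Fin 3) // y.1 ≠ y.2 ∧ y.1.isLeft = y.2.isLeft} := by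
    refine Equiv.subtypeEquivRight fun y => ?_
    obtain ⟨y, z⟩ := y
    rcases y with i | i <;> rcases z with j | j <;> simp
  rw [Nat.card_congr e, Nat.card_eq_fintype_card]
  decide +kernel

theorem card_Pr (S : G.Subgraph) (hS : Nonempty (KK ≃g S.coe)) : Nat.card (Pr G S) = 12 := by
  obtain ⟨e⟩ := hS
  rw [← card_side]
  symm
  refine Nat.card_eq_of_bijective (fun y => ⟨((e y.1.1 : V), (e y.1.2 : V)), (e y.1.1).2,
    (e y.1.2).2, ?_, ?_⟩) ⟨?_, ?_⟩
  · intro h
    exact y.2.1 (e.injective (Subtype.ext h))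
  · intro h
    exact y.2.2 (e.map_rel_iff.1 (by rw [Subgraph.coe_adj]; exact h))
  · intro y z hyz
    have h1 := congrArg (fun w : Pr G S => w.1.1) hyz
    have h2 := congrArg (fun w : Pr G S => w.1.2) hyz
    have h3 : y.1.1 = z.1.1 := e.injective (Subtype.ext h1)
    have h4 : y.1.2 = z.1.2 := e.injective (Subtype.ext h2)
    exact Subtype.ext (Prod.ext h3 h4)
  · rintro ⟨⟨u, v⟩, hu, hv, hne, hadj⟩
    refine ⟨⟨(e.symm ⟨u, hu⟩, e.symm ⟨v, hv⟩), ?_, ?_⟩, ?_⟩
    · intro h
      have := e.symm.injective h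
      exact hne (congrArg Subtype.val this)
    · intro h
      have := e.map_rel_iff.2 h
      rw [Subgraph.coe_adj] at this
      simp only [RelIso.apply_symm_apply] at this
      exact hadj this
    · refine Subtype.ext ?_
      simp

variable [Fintype V]

instance : Finite (Cps G) := Subtype.finite
instance (S : G.Subgraph) : Finite (Pr G S) := Subtype.finite

theorem card_Omega : Nat.card (Σ S : Cps G, Pr G S.1) = 12 * G.copyCount KK := by
  classical
  have : Fintype (Cps G) := Fintype.ofFinite _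
  rw [Nat.card_sigma, Finset.sum_congr rfl fun S _ => card_Pr G S.1 S.2, Finset.sum_const,
    smul_eq_mul, copyCount_eq, Nat.card_eq_fintype_card, Finset.card_univ, mul_comm]

/-- pairs contained in one side of a copy -/
def TT : Set (V × V) := {x | ∃ f : KK.Copy G, f (Sum.inl 0) = x.1 ∧ f (Sum.inl 1) = x.2}

theorem card_TT : Nat.card (TT G) ≤ 12 * G.copyCount KK := by
  rw [← card_Omega]
  have key : ∀ x : TT G, ∃ w : (Σ S : Cps G, Pr G S.1), w.2.1 = x.1 := by
    rintro ⟨⟨u, v⟩, f, hu, hv⟩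
    simp only at hu hv
    refine ⟨⟨⟨f.toSubgraph, ⟨f.isoToSubgraph⟩⟩, ⟨(u, v), ?_, ?_, ?_, ?_⟩⟩, rfl⟩
    · rw [← hu]; simp [Copy.toSubgraph]
    · rw [← hv]; simp [Copy.toSubgraph]
    · simp only
      rw [← hu, ← hv]
      intro h
      have := f.injective h
      simp at this
    · simp only
      rw [← hu, ← hv]
      intro h
      obtain ⟨a, b, hab, ha, hb⟩ := h
      have h1 : a = Sum.inl 0 := f.injective ha
      have h2 : b = Sum.inl 1 := f.injective hb
      subst h1 h2
      simp at hab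
  choose g hg using key
  refine Nat.card_le_card_of_injective g fun x y hxy => ?_
  refine Subtype.ext ?_
  rw [← hg x, ← hg y, hxy]

variable {G}

theorem codeg_le (hG : (completeBipartiteGraph (Fin 2) (Fin 4)).Free G) {u v : V} (huv : u ≠ v)
    (s : Finset V) (hs : ∀ x ∈ s, G.Adj u x ∧ G.Adj v x) : s.card ≤ 3 := by
  by_contra hcon
  rw [not_le] at hcon
  have h4 : 4 ≤ s.card := hcon
  obtain ⟨t, hts, ht⟩ := Finset.exists_subset_card_eq h4
  have e := t.equivFin
  rw [ht] at e
  have hg : ∀ i : Fin 4, ((e.symm i : V)) ∈ s := fun i => hts (e.symm i).2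
  refine hG ⟨⟨⟨Sum.elim ![u, v] (fun i => (e.symm i : V)), ?_⟩, ?_⟩⟩
  · intro x y hxy
    have hz : ∀ (i : Fin 2) (j : Fin 4), G.Adj (![u, v] i) (e.symm j : V) := by
      intro i j
      fin_cases i
      · exact (hs _ (hg j)).1
      · exact (hs _ (hg j)).2
    rcases x with i | i <;> rcases y with j | j
    · simp at hxy
    · exact hz i j
    · exact (hz j i).symm
    · simp at hxy
  · have hz : ∀ (i : Fin 2) (j : Fin 4), (![u, v] i) ≠ (e.symm j : V) := by
      intro i j
      fin_cases i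
      · exact (hs _ (hg j)).1.ne
      · exact (hs _ (hg j)).2.ne
    intro x y hxy
    rcases x with i | i <;> rcases y with j | j
    · have : (![u, v] i) = (![u, v] j) := hxy
      fin_cases i <;> fin_cases j
      · rfl
      · exact absurd this huv
      · exact absurd this huv.symm
      · rfl
    · exact absurd hxy (hz i j)
    · exact absurd hxy.symm (hz j i)
    · have h1 : (e.symm i : V) = (e.symm j : V) := hxy
      rw [e.symm.injective (Subtype.ext h1)]

/-- the two sides of a copy, the first one contains a given pair -/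
theorem sides [DecidableEq V] {S : G.Subgraph} (hS : Nonempty (KK ≃g S.coe)) (x : Pr G S) :
    ∃ A B : Finset V, A.card = 3 ∧ B.card = 3 ∧ x.1.1 ∈ A ∧ x.1.2 ∈ A ∧
      (∀ w, w ∈ S.verts ↔ w ∈ A ∨ w ∈ B) ∧
      (∀ a b, S.Adj a b ↔ (a ∈ A ∧ b ∈ B) ∨ (a ∈ B ∧ b ∈ A)) := by
  obtain ⟨e⟩ := hS
  obtain ⟨⟨u, v⟩, hu, hv, hne, hadj⟩ := x
  simp only at hu hv hne hadj ⊢
  set A : Finset V := Finset.univ.image (fun i : Fin 3 => (e (Sum.inl i) : V)) with hA
  set B : Finset V := Finset.univ.image (fun i : Fin 3 => (e (Sum.inr i) : V)) with hB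
  have hAc : A.card = 3 := by
    rw [hA, Finset.card_image_of_injective]
    · simp
    · intro i j hij
      have := e.injective (Subtype.ext hij)
      simpa using this
  have hBc : B.card = 3 := by
    rw [hB, Finset.card_image_of_injective]
    · simp
    · intro i j hij
      have := e.injective (Subtype.ext hij)
      simpa using this
  have hverts : ∀ w, w ∈ S.verts ↔ w ∈ A ∨ w ∈ B := by
    intro w
    constructor
    · intro hw
      obtain ⟨y, hy⟩ := e.surjective ⟨w, hw⟩
      rcases y with i | i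
      · left
        rw [hA, Finset.mem_image]
        exact ⟨i, Finset.mem_univ _, by rw [hy]⟩
      · right
        rw [hB, Finset.mem_image]
        exact ⟨i, Finset.mem_univ _, by rw [hy]⟩
    · rintro (h | h)
      · obtain ⟨i, _, rfl⟩ := Finset.mem_image.1 h
        exact (e (Sum.inl i)).2
      · obtain ⟨i, _, rfl⟩ := Finset.mem_image.1 h
        exact (e (Sum.inr i)).2
  have hAdj : ∀ a b, S.Adj a b ↔ (a ∈ A ∧ b ∈ B) ∨ (a ∈ B ∧ b ∈ A) := by
    intro a b
    constructor
    · intro hab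
      have ha : a ∈ S.verts := hab.fst_mem
      have hb : b ∈ S.verts := hab.snd_mem
      obtain ⟨y, hy⟩ := e.surjective ⟨a, ha⟩
      obtain ⟨z, hz⟩ := e.surjective ⟨b, hb⟩
      have h1 : S.coe.Adj (e y) (e z) := by
        rw [hy, hz, Subgraph.coe_adj]
        exact hab
      have h2 := e.map_rel_iff.1 h1
      rcases y with i | i <;> rcases z with j | j
      · simp at h2
      · left
        rw [hA, hB, Finset.mem_image, Finset.mem_image]
        exact ⟨⟨i, Finset.mem_univ _, by rw [hy]⟩, ⟨j, Finset.mem_univ _, by rw [hz]⟩⟩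
      · right
        rw [hA, hB, Finset.mem_image, Finset.mem_image]
        exact ⟨⟨i, Finset.mem_univ _, by rw [hy]⟩, ⟨j, Finset.mem_univ _, by rw [hz]⟩⟩
      · simp at h2
    · have key : ∀ i j : Fin 3, S.Adj (e (Sum.inl i) : V) (e (Sum.inr j) : V) := by
        intro i j
        have h1 : S.coe.Adj (e (Sum.inl i)) (e (Sum.inr j)) := e.map_rel_iff.2 (by simp)
        rw [Subgraph.coe_adj] at h1
        exact h1
      rintro (⟨h1, h2⟩ | ⟨h1, h2⟩)
      · obtain ⟨i, _, rfl⟩ := Finset.mem_image.1 h1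
        obtain ⟨j, _, rfl⟩ := Finset.mem_image.1 h2
        exact key i j
      · obtain ⟨i, _, rfl⟩ := Finset.mem_image.1 h1
        obtain ⟨j, _, rfl⟩ := Finset.mem_image.1 h2
        exact (key j i).symm
  by_cases huA : u ∈ A
  · have hvA : v ∈ A := by
      rcases (hverts v).1 hv with h | h
      · exact h
      · exact absurd ((hAdj u v).2 (Or.inl ⟨huA, h⟩)) hadj
    exact ⟨A, B, hAc, hBc, huA, hvA, hverts, hAdj⟩
  · have huB : u ∈ B := ((hverts u).1 hu).resolve_left huA
    have hvB : v ∈ B := by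
      rcases (hverts v).1 hv with h | h
      · exact absurd ((hAdj u v).2 (Or.inr ⟨huB, h⟩)) hadj
      · exact h
    exact ⟨B, A, hBc, hAc, huB, hvB, fun w => by rw [hverts, or_comm],
      fun a b => by rw [hAdj, or_comm]⟩

/-- the upper bound -/
theorem upper_bound (hG : (completeBipartiteGraph (Fin 2) (Fin 4)).Free G) :
    12 * G.copyCount KK ≤ Fintype.card V ^ 2 := by
  classical
  rw [← card_Omega]
  have h1 : Nat.card (V × V) = Fintype.card V ^ 2 := by
    rw [Nat.card_prod, Nat.card_eq_fintype_card, sq]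
  rw [← h1]
  refine Nat.card_le_card_of_injective (fun w : (Σ S : Cps G, Pr G S.1) => w.2.1) ?_
  rintro ⟨⟨S, hS⟩, x⟩ ⟨⟨S', hS'⟩, x'⟩ hxx
  simp only at hxx
  obtain ⟨A, B, hA, hB, h2, h3, h4, h5⟩ := sides hS x
  obtain ⟨A', B', hA', hB', h2', h3', h4', h5'⟩ := sides hS' x'
  rw [← hxx] at h2' h3'
  have hne : x.1.1 ≠ x.1.2 := x.2.2.2.1
  have hadj : ∀ a ∈ A, ∀ b ∈ B, G.Adj a b := fun a ha b hb =>
    ((h5 a b).2 (Or.inl ⟨ha, hb⟩)).adj_sub
  have hadj' : ∀ a ∈ A', ∀ b ∈ B', G.Adj a b := fun a ha b hb =>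
    ((h5' a b).2 (Or.inl ⟨ha, hb⟩)).adj_sub
  have hBB : B = B' := by
    have h6 : (B ∪ B').card ≤ 3 := codeg_le hG hne _ fun w hw => by
      rcases Finset.mem_union.1 hw with h | h
      · exact ⟨hadj _ h2 _ h, hadj _ h3 _ h⟩
      · exact ⟨hadj' _ h2' _ h, hadj' _ h3' _ h⟩
    have h7 : B = B ∪ B' := Finset.eq_of_subset_of_card_le Finset.subset_union_left (by omega)
    have h8 : B' = B ∪ B' := Finset.eq_of_subset_of_card_le Finset.subset_union_right (by omega)
    rw [h7, ← h8]
  subst hBB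
  have hAA : A = A' := by
    obtain ⟨b, hb, b', hb', hbb⟩ := Finset.one_lt_card.1 (by omega : 1 < B.card)
    have h6 : (A ∪ A').card ≤ 3 := codeg_le hG hbb _ fun w hw => by
      rcases Finset.mem_union.1 hw with h | h
      · exact ⟨(hadj _ h _ hb).symm, (hadj _ h _ hb').symm⟩
      · exact ⟨(hadj' _ h _ hb).symm, (hadj' _ h _ hb').symm⟩
    have h7 : A = A ∪ A' := Finset.eq_of_subset_of_card_le Finset.subset_union_left (by omega)
    have h8 : A' = A ∪ A' := Finset.eq_of_subset_of_card_le Finset.subset_union_right (by omega)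
    rw [h7, ← h8]
  subst hAA
  have hSS : S = S' := by
    refine Subgraph.ext ?_ ?_
    · ext w
      rw [h4, h4']
    · funext a b
      exact propext ((h5 a b).trans (h5' a b).symm)
  subst hSS
  have hx : x = x' := Subtype.ext hxx
  subst hx
  rfl

end K33
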