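import Mathlib
import Pool.Agent.Work.MP_63048f_co.K4
import Pool.Agent.Work.MP_63048f_co.K5
import Pool.Agent.Work.WI.W5

/-!
# MP_63048f_co, t = 3, part 6 (helper19): assembly
-/

set_option autoImplicit false
set_option linter.unusedSectionVars false

namespace K33

open SimpleGraph Filter Topology

/-- the generalized Turan number `ex(n, K_{t,t}, K_{2,t+1})` -/
noncomputable def N (t n : ℕ) : ℕ :=
  sSup {c | ∃ G : SimpleGraph (Fin n),
    (completeBipartiteGraph (Fin 2) (Fin (t + 1))).Free G ∧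
      c = G.copyCount (completeBipartiteGraph (Fin t) (Fin t))}

theorem bdd (t n : ℕ) : BddAbove {c | ∃ G : SimpleGraph (Fin n),
    (completeBipartiteGraph (Fin 2) (Fin (t + 1))).Free G ∧
      c = G.copyCount (completeBipartiteGraph (Fin t) (Fin t))} := by
  classical
  refine Set.Finite.bddAbove ?_
  refine (Set.finite_range fun G : SimpleGraph (Fin n) =>
    G.copyCount (completeBipartiteGraph (Fin t) (Fin t))).subset ?_
  rintro c ⟨G, _, rfl⟩
  exact ⟨G, rfl⟩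

theorem le_N {t n : ℕ} {G : SimpleGraph (Fin n)}
    (h : (completeBipartiteGraph (Fin 2) (Fin (t + 1))).Free G) :
    G.copyCount (completeBipartiteGraph (Fin t) (Fin t)) ≤ N t n :=
  le_csSup (bdd t n) ⟨G, h, rfl⟩

theorem N_le (n : ℕ) : 12 * N 3 n ≤ n ^ 2 := by
  have h1 : N 3 n ≤ n ^ 2 / 12 := by
    refine csSup_le' ?_
    rintro c ⟨G, hG, rfl⟩
    rw [Nat.le_div_iff_mul_le (by norm_num), mul_comm]
    have h := upper_bound hG
    rwa [Fintype.card_fin] at h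
  calc 12 * N 3 n ≤ 12 * (n ^ 2 / 12) := Nat.mul_le_mul_left _ h1
    _ ≤ n ^ 2 := Nat.mul_div_le _ _

/-- transfer to `Fin n` -/
theorem transfer {V : Type} [Fintype V] (G : SimpleGraph V) {n : ℕ} (hn : Fintype.card V ≤ n)
    (hG : (completeBipartiteGraph (Fin 2) (Fin 4)).Free G) :
    Nat.card (TT G) ≤ 12 * N 3 n := by
  classical
  have hle : Fintype.card V ≤ Fintype.card (Fin n) := by rwa [Fintype.card_fin]
  obtain ⟨ι⟩ := Function.Embedding.nonempty_of_card_le hle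
  have hfree : (completeBipartiteGraph (Fin 2) (Fin 4)).Free (G.map ι) := by
    rintro ⟨f⟩
    have hadj : ∀ i j, (G.map ι).Adj (f (Sum.inl i)) (f (Sum.inr j)) := fun i j =>
      f.toHom.map_adj (by simp)
    have hex : ∀ x, ∃ y, ι y = f x := by
      intro x
      rcases x with i | j
      · obtain ⟨a, b, _, ha, _⟩ := (SimpleGraph.map_adj ι G _ _).1 (hadj i 0)
        exact ⟨a, ha⟩
      · obtain ⟨a, b, _, _, hb⟩ := (SimpleGraph.map_adj ι G _ _).1 (hadj 0 j)
        exact ⟨b, hb⟩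
    choose g hg using hex
    refine hG ⟨⟨⟨g, ?_⟩, ?_⟩⟩
    · intro x y hxy
      have h1 := f.toHom.map_adj hxy
      obtain ⟨a, b, hab, ha, hb⟩ := (SimpleGraph.map_adj ι G _ _).1 h1
      have ha' : a = g x := ι.injective (by rw [ha, hg]; rfl)
      have hb' : b = g y := ι.injective (by rw [hb, hg]; rfl)
      rw [← ha', ← hb']
      exact hab
    · intro x y hxy
      refine f.injective ?_
      have h1 : g x = g y := hxy
      have h2 : f x = f y := by rw [← hg x, ← hg y, h1]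
      exact h2
  have h1 : Nat.card (TT (G.map ι)) ≤ 12 * N 3 n :=
    (card_TT (G.map ι)).trans (Nat.mul_le_mul_left _ (le_N (t := 3) hfree))
  refine le_trans ?_ h1
  have hmem : ∀ x : TT G, (ι x.1.1, ι x.1.2) ∈ TT (G.map ι) := by
    rintro ⟨⟨u, v⟩, f, hu, hv⟩
    refine ⟨(SimpleGraph.Embedding.map ι G).toCopy.comp f, ?_, ?_⟩
    · exact congrArg ι hu
    · exact congrArg ι hv
  refine Nat.card_le_card_of_injective (fun x : TT G => (⟨_, hmem x⟩ : TT (G.map ι))) ?_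
  intro x y hxy
  have h2 := congrArg Subtype.val hxy
  simp only [Prod.mk.injEq] at h2
  exact Subtype.ext (Prod.ext (ι.injective h2.1) (ι.injective h2.2))

/-- the number of pairs in the graph over `ZMod p` -/
theorem many_pairs : ∃ d p0 : ℕ, ∀ p : ℕ, p0 ≤ p → ∀ _ : Fact p.Prime,
    p ^ 4 ≤ d * p ^ 3 + 9 * Nat.card (TT (G (ZMod p))) := by
  obtain ⟨d, p0, h⟩ := few_bad
  refine ⟨d, p0, fun p hp hpr => ?_⟩
  classical
  have h1 := h p hp hpr
  have hp0 : 0 < p := hpr.out.pos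
  have hsplit : Nat.card {v : Fin 6 → ZMod p // D ![v 0, v 1, v 2] ![v 3, v 4, v 5] = 0} +
      Nat.card {v : Fin 6 → ZMod p // ¬ D ![v 0, v 1, v 2] ![v 3, v 4, v 5] = 0} = p ^ 6 := by
    rw [Nat.card_eq_fintype_card, Nat.card_eq_fintype_card, Fintype.card_subtype_compl,
      Fintype.card_fun, ZMod.card, Fintype.card_fin]
    refine Nat.add_sub_of_le ?_
    have h2 := Fintype.card_subtype_le
      (fun v : Fin 6 → ZMod p => D ![v 0, v 1, v 2] ![v 3, v 4, v 5] = 0)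
    rwa [Fintype.card_fun, ZMod.card, Fintype.card_fin] at h2
  have h2 : Nat.card {v : Fin 6 → ZMod p // ¬ D ![v 0, v 1, v 2] ![v 3, v 4, v 5] = 0} ≤
      Nat.card (TT (G (ZMod p))) * (((p - 1) * 3) * ((p - 1) * 3)) := by
    have h3 := card_pairs (F := ZMod p) (TT (G (ZMod p)))
    rw [Nat.card_zmod] at h3
    rw [← h3]
    have hmem : ∀ v : {v : Fin 6 → ZMod p // ¬ D ![v 0, v 1, v 2] ![v 3, v 4, v 5] = 0},
        ((vx v.2 0, vx v.2 1) : V (ZMod p) × V (ZMod p)) ∈ TT (G (ZMod p)) := fun v =>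
      ⟨cp v.2, rfl, rfl⟩
    refine Nat.card_le_card_of_injective (fun v => ⟨(⟨_, generic_val v.2 0⟩,
      ⟨_, generic_val v.2 1⟩), hmem v⟩) ?_
    intro v w hvw
    have h4 := congrArg (fun x : {x : {P : Vec (ZMod p) // Val P} × {P : Vec (ZMod p) // Val P} //
      (cl x.1, cl x.2) ∈ TT (G (ZMod p))} => x.1.1.1) hvw
    have h5 := congrArg (fun x : {x : {P : Vec (ZMod p) // Val P} × {P : Vec (ZMod p) // Val P} //
      (cl x.1, cl x.2) ∈ TT (G (ZMod p))} => x.1.2.1) hvw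
    have h4' : (![v.1 0, v.1 1, v.1 2] : Vec (ZMod p)) = ![w.1 0, w.1 1, w.1 2] := h4
    have h5' : (![v.1 3, v.1 4, v.1 5] : Vec (ZMod p)) = ![w.1 3, w.1 4, w.1 5] := h5
    refine Subtype.ext (funext fun i => ?_)
    fin_cases i
    · exact congrFun h4' 0
    · exact congrFun h4' 1
    · exact congrFun h4' 2
    · exact congrFun h5' 0
    · exact congrFun h5' 1
    · exact congrFun h5' 2
  have h3 : ((p - 1) * 3) * ((p - 1) * 3) ≤ 9 * p ^ 2 := by
    have : p - 1 ≤ p := Nat.sub_le _ _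
    calc ((p - 1) * 3) * ((p - 1) * 3) ≤ (p * 3) * (p * 3) := by gcongr
      _ = 9 * p ^ 2 := by ring
  have h4 : p ^ 6 ≤ d * p ^ 5 + Nat.card (TT (G (ZMod p))) * (9 * p ^ 2) := by
    calc p ^ 6 = _ := hsplit.symm
      _ ≤ d * p ^ 5 + Nat.card (TT (G (ZMod p))) * (((p - 1) * 3) * ((p - 1) * 3)) :=
        Nat.add_le_add h1 h2
      _ ≤ _ := Nat.add_le_add_left (Nat.mul_le_mul_left _ h3) _
  have h5 : p ^ 4 * p ^ 2 ≤ (d * p ^ 3 + 9 * Nat.card (TT (G (ZMod p)))) * p ^ 2 := by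
    calc p ^ 4 * p ^ 2 = p ^ 6 := by ring
      _ ≤ _ := h4
      _ = _ := by ring
  exact Nat.le_of_mul_le_mul_right h5 (by positivity)

/-- main estimate -/
theorem main_est : ∃ d p0 : ℕ, ∀ p n : ℕ, p0 ≤ p → p.Prime → p ^ 2 + p + 1 ≤ 3 * n →
    p ^ 4 ≤ d * p ^ 3 + 108 * N 3 n := by
  obtain ⟨d, p0, h⟩ := many_pairs
  refine ⟨d, p0, fun p n hp hpr hn => ?_⟩
  have hf : Fact p.Prime := ⟨hpr⟩
  have h1 := h p hp hf
  have : Fintype (V (ZMod p)) := Fintype.ofFinite _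
  have h2 := card_V (F := ZMod p)
  rw [Nat.card_zmod, Nat.card_eq_fintype_card] at h2
  have h3 := transfer (G (ZMod p)) (n := n) (by omega) G_free
  omega

theorem result_aux : Tendsto (fun n : ℕ => (N 3 n : ℝ) / (n : ℝ) ^ 2) atTop (𝓝 (1 / 12)) := by
  obtain ⟨d, p0, hmain⟩ := main_est
  rw [tendsto_order]
  constructor
  · intro b hb
    -- choice of `δ`
    have hδ : ∃ δ : ℝ, 0 < δ ∧ δ < 1 ∧ b < (1 - δ) ^ 5 / 12 := by
      have h1 : Tendsto (fun δ : ℝ => (1 - δ) ^ 5 / 12) (𝓝[>] 0) (𝓝 ((1 - 0) ^ 5 / 12)) := by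
        have h2 : Continuous fun δ : ℝ => (1 - δ) ^ 5 / 12 := by fun_prop
        exact (h2.tendsto 0).mono_left nhdsWithin_le_nhds
      have h3 : b < ((1 : ℝ) - 0) ^ 5 / 12 := by
        rw [sub_zero, one_pow]
        exact hb
      have h4 : ∀ᶠ δ : ℝ in 𝓝[>] 0, δ < 1 :=
        nhdsWithin_le_nhds (Iio_mem_nhds zero_lt_one)
      obtain ⟨δ, h5, h6, h7⟩ := ((h1.eventually_const_lt h3).and
        (h4.and self_mem_nhdsWithin)).exists
      exact ⟨δ, h7, h6, h5⟩
    obtain ⟨δ, hδ0, hδ1, hδb⟩ := hδ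
    -- the real variable
    have hs : Tendsto (fun n : ℕ => (1 - δ) * Real.sqrt (3 * n)) atTop atTop := by
      refine Tendsto.const_mul_atTop (by linarith) ?_
      refine Real.tendsto_sqrt_atTop.comp ?_
      exact tendsto_natCast_atTop_atTop.const_mul_atTop (by norm_num)
    have hpr := hs.eventually (WI.prime_gap hδ0)
    have hbig1 := hs.eventually_ge_atTop (p0 : ℝ)
    have hbig2 := hs.eventually_ge_atTop (d / δ)
    -- for the upper bound of `p ^ 2 + p + 1`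
    have hbig3 : ∀ᶠ n : ℕ in atTop, (1 - δ ^ 2) ^ 2 * (3 * n) + Real.sqrt (3 * n) + 1 ≤ 3 * n := by
      have hc : 0 < 1 - (1 - δ ^ 2) ^ 2 := by
        have h0 : 1 - (1 - δ ^ 2) ^ 2 = δ ^ 2 * (2 - δ ^ 2) := by ring
        rw [h0]
        have h1 : δ ^ 2 < 1 := by nlinarith
        have h2 : 0 < δ ^ 2 := by positivity
        exact mul_pos h2 (by linarith)
      have h1 : Tendsto (fun n : ℕ => Real.sqrt (3 * n)) atTop atTop :=
        Real.tendsto_sqrt_atTop.comp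
          (tendsto_natCast_atTop_atTop.const_mul_atTop (by norm_num))
      filter_upwards [h1.eventually_ge_atTop (2 / (1 - (1 - δ ^ 2) ^ 2)),
        h1.eventually_ge_atTop 1] with n h2 h3
      have h4 : Real.sqrt (3 * n) * Real.sqrt (3 * n) = 3 * n := Real.mul_self_sqrt (by positivity)
      rw [div_le_iff₀ hc] at h2
      set y := Real.sqrt (3 * n)
      nlinarith
    filter_upwards [hpr, hbig1, hbig2, hbig3, eventually_gt_atTop 0] with n h1 h2 h3 h4 hn
    obtain ⟨p, hp, hp1, hp2⟩ := h1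
    set y := Real.sqrt (3 * n) with hy
    have hyy : y * y = 3 * n := Real.mul_self_sqrt (by positivity)
    have hn0 : (0 : ℝ) < n := by exact_mod_cast hn
    have hy0 : 0 < y := Real.sqrt_pos.2 (by positivity)
    have hp3 : (p : ℝ) ≤ (1 - δ ^ 2) * y := by
      calc (p : ℝ) ≤ (1 + δ) * ((1 - δ) * y) := hp2
        _ = _ := by ring
    have hp4 : (p : ℝ) ≤ y := by nlinarith [sq_nonneg δ]
    have hp5 : p ^ 2 + p + 1 ≤ 3 * n := by
      have h5 : (p : ℝ) ^ 2 + p + 1 ≤ 3 * n := by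
        have h6 : (p : ℝ) ^ 2 ≤ ((1 - δ ^ 2) * y) ^ 2 := by gcongr
        have h7 : ((1 - δ ^ 2) * y) ^ 2 = (1 - δ ^ 2) ^ 2 * (3 * n) := by
          rw [mul_pow, sq y, hyy]
        linarith
      exact_mod_cast h5
    have hp6 : p0 ≤ p := by
      have : (p0 : ℝ) ≤ p := h2.trans hp1.le
      exact_mod_cast this
    have h5 := hmain p n hp6 hp hp5
    have h6 : (p : ℝ) ^ 4 ≤ d * (p : ℝ) ^ 3 + 108 * N 3 n := by exact_mod_cast h5
    have hp7 : (d : ℝ) ≤ δ * p := by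
      have h7 : (d : ℝ) / δ ≤ p := h3.trans hp1.le
      rw [div_le_iff₀ hδ0] at h7
      linarith
    have hp8 : 0 < (p : ℝ) := by exact_mod_cast hp.pos
    have h7 : (1 - δ) * (p : ℝ) ^ 4 ≤ 108 * N 3 n := by
      have h8 : (d : ℝ) * (p : ℝ) ^ 3 ≤ (δ * p) * (p : ℝ) ^ 3 :=
        mul_le_mul_of_nonneg_right hp7 (by positivity)
      nlinarith
    have h8 : ((1 - δ) * y) ^ 4 ≤ (p : ℝ) ^ 4 := by
      have : 0 ≤ (1 - δ) * y := mul_nonneg (by linarith) hy0.le
      gcongr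
    have h9 : ((1 - δ) * y) ^ 4 = (1 - δ) ^ 4 * (9 * (n : ℝ) ^ 2) := by
      have : y ^ 4 = 9 * (n : ℝ) ^ 2 := by
        calc y ^ 4 = (y * y) * (y * y) := by ring
          _ = _ := by rw [hyy]; ring
      rw [mul_pow, this]
    have h10 : (1 - δ) ^ 5 * (9 * (n : ℝ) ^ 2) ≤ 108 * N 3 n := by
      calc (1 - δ) ^ 5 * (9 * (n : ℝ) ^ 2) = (1 - δ) * ((1 - δ) ^ 4 * (9 * (n : ℝ) ^ 2)) := by ring
        _ ≤ (1 - δ) * (p : ℝ) ^ 4 := by
          refine mul_le_mul_of_nonneg_left ?_ (by linarith)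
          rw [← h9]
          exact h8
        _ ≤ _ := h7
    have h11 : (1 - δ) ^ 5 / 12 ≤ (N 3 n : ℝ) / (n : ℝ) ^ 2 := by
      rw [le_div_iff₀ (by positivity)]
      linarith
    linarith
  · intro b hb
    filter_upwards [eventually_gt_atTop 0] with n hn
    refine lt_of_le_of_lt ?_ hb
    have hn0 : (0 : ℝ) < n := by exact_mod_cast hn
    rw [div_le_iff₀ (by positivity)]
    have h1 : (12 : ℝ) * N 3 n ≤ (n : ℝ) ^ 2 := by exact_mod_cast N_le n
    linarith

end K33
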